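import Pool.Agent.H573R3.SL.Defs

namespace Pool.Agent.H573R3.SL

open Finset Pool.Agent.H647R3.UG

theorem T_DECL (hSP : St_SP) (hEAL : St_EAL) : St_DECL := by
  intro V _ _ w K hw hs hn hK
  have hn1 : (1 : ℝ) < (Fintype.card V : ℝ) := by
    have : (2 : ℝ) ≤ (Fintype.card V : ℝ) := by exact_mod_cast hn
    linarith
  have hn0 : (0 : ℝ) < (Fintype.card V : ℝ) := by linarith
  have hlog : 0 < Real.log (Fintype.card V) := Real.log_pos hn1
  have hl : 0 < K / (2 * Real.log (Fintype.card V)) := by positivity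
  obtain ⟨f, hf, hL, hE⟩ := hSP V w (K / (2 * Real.log (Fintype.card V))) hw hs hl.le
  refine ⟨f, hf, ?_, hL, ?_⟩
  · have h1 : ∑ i, ∑ u, ∑ v, w u v * (f i u - f i v) ^ 2 = 2 * ∑ i, en w (f i) := by
      rw [Finset.mul_sum]
      refine Finset.sum_congr rfl fun i _ => ?_
      unfold en
      ring
    have h2 : K / (2 * Real.log (Fintype.card V))
        * ((∑ v, dw w v) * Real.log (Fintype.card V)) = K / 2 * ∑ v, dw w v := by
      field_simp
    have h3 : ∑ v, dw w v = ∑ u, ∑ v, w u v := rfl
    rw [h2, h3] at hE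
    rw [h1]
    linarith
  · intro i η hη hη1
    have h := hEAL V w (f i) (K / (2 * Real.log (Fintype.card V))) η hw hs (hf.1 i) hl hη hη1 (hL i)
    refine h.trans (le_of_eq ?_)
    have he : Real.exp (8 * η / (K / (2 * Real.log (Fintype.card V))) * Real.log (1 / η))
        = (Fintype.card V : ℝ) ^ (16 * η / K * Real.log (1 / η)) := by
      rw [Real.rpow_def_of_pos hn0]
      congr 1
      field_simp
      ring
    rw [he, Real.rpow_add hn0]
    ring

end Pool.Agent.H573R3.SL
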