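import Pool.Agent.H573R3.SL.Defs
import Pool.Agent.H647R3.UG.T_EA

/-! Task EAL (helper439): adaptation of `Pool.Agent.H647R3.UG.T_EA`. -/

namespace Pool.Agent.H573R3.SL

open Finset Pool.Agent.H647R3.UG

namespace EAL

theorem cf_nonneg {V : Type} {w : V → V → ℝ} {f : V → ℝ} (hw : ∀ u v, 0 ≤ w u v)
    (hf : ∀ v, 0 ≤ f v) (u v : V) : 0 ≤ cf w f u v :=
  mul_nonneg (hw u v) (mul_nonneg (hf u) (hf v))

theorem cf_symm {V : Type} {w : V → V → ℝ} {f : V → ℝ} (hs : ∀ u v, w u v = w v u) (u v : V) :
    cf w f u v = cf w f v u := by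
  unfold cf
  rw [hs u v, mul_comm (f u)]

theorem dw_nonneg {V : Type} [Fintype V] {w : V → V → ℝ} (hw : ∀ u v, 0 ≤ w u v) (u : V) :
    0 ≤ dw w u := Finset.sum_nonneg fun v _ => hw u v

theorem mf_nonneg {V : Type} [Fintype V] {w : V → V → ℝ} {f : V → ℝ} (hw : ∀ u v, 0 ≤ w u v)
    (u : V) : 0 ≤ mf w f u := mul_nonneg (dw_nonneg hw u) (sq_nonneg _)

theorem cf_zero {V : Type} [Fintype V] {w : V → V → ℝ} {f : V → ℝ} (hw : ∀ u v, 0 ≤ w u v)
    {u : V} (h : mf w f u = 0) (v : V) : cf w f u v = 0 := by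
  unfold mf at h
  unfold cf
  rcases mul_eq_zero.1 h with h | h
  · have h1 : w u v = 0 :=
      (Finset.sum_eq_zero_iff_of_nonneg (fun v _ => hw u v)).1 h v (Finset.mem_univ v)
    rw [h1, zero_mul]
  · have h1 : f u = 0 := by
      rcases pow_eq_zero_iff (two_ne_zero) |>.1 h with h
      exact h
    rw [h1, zero_mul, mul_zero]

theorem herm {V : Type} [Fintype V] [DecidableEq V] (w : V → V → ℝ) (f : V → ℝ)
    (hs : ∀ u v, w u v = w v u) : (softLap w f).IsHermitian := by
  ext u v
  simp only [Matrix.conjTranspose_apply, star_trivial, softLap]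
  rw [cf_symm hs v u, mul_comm (Real.sqrt (mf w f v))]
  by_cases h : u = v
  · subst h; rfl
  · rw [if_neg h, if_neg (fun h' => h h'.symm)]

/-- sums over the points of positive mass -/
theorem sum_pos {V : Type} [Fintype V] (m g : V → ℝ) (h : ∀ v, ¬ 0 < m v → g v = 0) :
    ∑ v, g v = ∑ u : {v // 0 < m v}, g u := by
  classical
  have h1 : ∑ v ∈ univ.filter (fun v => 0 < m v), g v = ∑ v, g v := by
    apply Finset.sum_subset (Finset.subset_univ _)
    intro x _ hx
    apply h
    intro h'
    exact hx (Finset.mem_filter.2 ⟨Finset.mem_univ _, h'⟩)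
  rw [← h1]
  exact Finset.sum_subtype _ (fun x => by simp) g

end EAL

theorem T_EAL (hGCFL : St_GCFL) : St_EAL := by
  intro V _ _ w f l η hw hs hf hl hη hη1 hL
  have hN := EAL.herm w f hs
  set m : V → ℝ := mf w f with hmdef
  set c : V → V → ℝ := cf w f with hcdef
  set N := softLap w f with hNdef
  have hm0 : ∀ u, 0 ≤ m u := EAL.mf_nonneg hw
  have hc0 : ∀ u v, 0 ≤ c u v := EAL.cf_nonneg hw hf
  have hcs : ∀ u v, c u v = c v u := EAL.cf_symm hs
  have hcz : ∀ u, m u = 0 → ∀ v, c u v = 0 := fun u h v => EAL.cf_zero hw h v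
  have hcz1 : ∀ u, ¬ 0 < m u → ∀ v, c u v = 0 := fun u h v =>
    hcz u (le_antisymm (not_lt.1 h) (hm0 u)) v
  have hcz2 : ∀ v, ¬ 0 < m v → ∀ u, c u v = 0 := fun v h u => by
    rw [hcs]; exact hcz1 v h u
  have hroots : N.charpoly.roots =
      Multiset.map hN.eigenvalues (univ : Finset {v // 0 < m v}).val := by
    have := hN.roots_charpoly_eq_eigenvalues
    rw [this]
    rfl
  set I : Finset {v // 0 < m v} := univ.filter fun i => hN.eigenvalues i ≤ η with hI
  have hcard : (N.charpoly.roots.filter fun x => x ≤ η).card = I.card := by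
    rw [hroots, Multiset.filter_map, Multiset.card_map]
    rfl
  rw [hcard]
  -- eigenvectors
  let E : {v // 0 < m v} → {v // 0 < m v} → ℝ := fun j u => hN.eigenvectorBasis j u
  have hEorth : ∀ j l : {v // 0 < m v}, ∑ u, E j u * E l u = if j = l then 1 else 0 := by
    intro j l
    have h1 := (orthonormal_iff_ite.1 hN.eigenvectorBasis.orthonormal) j l
    rw [← h1, PiLp.inner_apply]
    refine Finset.sum_congr rfl fun u _ => ?_
    simp [E, mul_comm]
  have hEeig : ∀ j u, ∑ v, N u v * E j v = hN.eigenvalues j * E j u := by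
    intro j u
    have h1 := congrFun (hN.mulVec_eigenvectorBasis j) u
    simpa [Matrix.mulVec, dotProduct, E] using h1
  let J : Type := {i : {v // 0 < m v} // i ∈ I}
  let U : J → V → ℝ := fun j u => if h : 0 < m u then E j.1 ⟨u, h⟩ / Real.sqrt (m u) else 0
  have hU : ∀ (j : J) (u : {v // 0 < m v}), U j u = E j.1 u / Real.sqrt (m u) := by
    intro j u
    simp only [U, dif_pos u.2]
  have hsq : ∀ u : {v // 0 < m v}, 0 < Real.sqrt (m u) := fun u => Real.sqrt_pos.2 u.2
  have hss : ∀ u : {v // 0 < m v}, Real.sqrt (m u) * Real.sqrt (m u) = m u := fun u =>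
    Real.mul_self_sqrt u.2.le
  have hmz : ∀ u, ¬ 0 < m u → m u = 0 := fun u h => le_antisymm (not_lt.1 h) (hm0 u)
  have hUorth : ∀ j l : J, ∑ u, m u * (U j u * U l u) = if j = l then 1 else 0 := by
    intro j l
    rw [EAL.sum_pos m _ (fun v hv => by rw [hmz v hv, zero_mul])]
    have h1 : ∀ u : {v // 0 < m v}, m u * (U j u * U l u) = E j.1 u * E l.1 u := by
      intro u
      rw [hU, hU]
      have := (hsq u).ne'
      field_simp
      rw [sq, hss u]
      ring
    simp only [h1]
    rw [hEorth]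
    by_cases h : j = l
    · subst h; simp
    · rw [if_neg h, if_neg (fun h' => h (Subtype.ext h'))]
  have hip : ∀ j : J, ip m (U j) (U j) = 1 := by
    intro j
    have h1 := hUorth j j
    rw [if_pos rfl] at h1
    rw [← h1]
    unfold ip
    refine Finset.sum_congr rfl fun u _ => ?_
    ring
  -- energies
  have hen : ∀ j : J, en c (U j) = hN.eigenvalues j.1 := by
    intro j
    have e1 : hN.eigenvalues j.1 =
        ∑ u : {v // 0 < m v}, ∑ v : {v // 0 < m v}, E j.1 u * (N u v * E j.1 v) := by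
      have : ∀ u : {v // 0 < m v}, ∑ v : {v // 0 < m v}, E j.1 u * (N u v * E j.1 v)
          = hN.eigenvalues j.1 * (E j.1 u * E j.1 u) := by
        intro u
        rw [← Finset.mul_sum, hEeig]
        ring
      simp only [this]
      rw [← Finset.mul_sum, hEorth]
      simp
    have e2 : ∀ u v : {v // 0 < m v}, E j.1 u * (N u v * E j.1 v)
        = (if u = v then (∑ x, c u x) * (U j u * U j u) else 0) - c u v * (U j u * U j v) := by
      intro u v
      rw [hU, hU]
      simp only [hNdef, softLap]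
      have h1 := (hsq u).ne'
      have h2 := (hsq v).ne'
      simp only [hmdef, hcdef] at h1 h2 ⊢
      by_cases h : u = v
      · subst h
        simp only [if_true]
        field_simp
      · simp only [if_neg h]
        field_simp
        ring
    have e3 : hN.eigenvalues j.1 = ∑ u : {v // 0 < m v}, (∑ x, c u x) * (U j u * U j u) -
        ∑ u : {v // 0 < m v}, ∑ v : {v // 0 < m v}, c u v * (U j u * U j v) := by
      rw [e1]
      simp only [e2, Finset.sum_sub_distrib, Finset.sum_ite_eq, Finset.mem_univ, if_true]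
    have e4 : ∑ u : {v // 0 < m v}, (∑ x, c u x) * (U j u * U j u) =
        ∑ u, (∑ x, c u x) * (U j u * U j u) := by
      rw [EAL.sum_pos m (fun u => (∑ x, c u x) * (U j u * U j u)) (fun v hv => by
        simp only [hcz1 v hv, Finset.sum_const_zero, zero_mul])]
    have e5 : ∑ u : {v // 0 < m v}, ∑ v : {v // 0 < m v}, c u v * (U j u * U j v) =
        ∑ u, ∑ v, c u v * (U j u * U j v) := by
      rw [EAL.sum_pos m (fun u => ∑ v, c u v * (U j u * U j v)) (fun v hv => by
        simp only [hcz1 v hv, zero_mul, Finset.sum_const_zero])]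
      refine Finset.sum_congr rfl fun u _ => ?_
      rw [EAL.sum_pos m (fun v => c u v * (U j u * U j v)) (fun v hv => by
        simp only [hcz2 v hv, zero_mul])]
    rw [e3, e4, e5]
    unfold en
    have a1 : ∀ u v, c u v * (U j u - U j v) ^ 2
        = c u v * (U j u * U j u) + c u v * (U j v * U j v) - 2 * (c u v * (U j u * U j v)) := by
      intro u v; ring
    simp only [a1, Finset.sum_sub_distrib, Finset.sum_add_distrib, ← Finset.mul_sum]
    have a2 : ∑ u, ∑ v, c u v * (U j v * U j v)
        = ∑ u, (∑ v, c u v) * (U j u * U j u) := by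
      rw [Finset.sum_comm]
      refine Finset.sum_congr rfl fun u _ => ?_
      rw [Finset.sum_mul]
      refine Finset.sum_congr rfl fun v _ => ?_
      rw [hcs v u]
    rw [a2]
    simp only [← Finset.sum_mul]
    ring
  rcases Nat.eq_zero_or_pos I.card with h0 | h0
  · rw [h0]
    simp only [Nat.cast_zero]
    positivity
  have hVpos : (0 : ℝ) < Fintype.card V := by
    obtain ⟨i, _⟩ := Finset.card_pos.1 h0
    have : 0 < Fintype.card V := Fintype.card_pos_iff.2 ⟨i.1⟩
    exact_mod_cast this
  have hJcard : Fintype.card J = I.card := Fintype.card_coe I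
  have hkpos : (0 : ℝ) < (I.card : ℝ) := by exact_mod_cast h0
  have hT : ∑ j : J, ip m (U j) (U j) = (I.card : ℝ) := by
    simp only [hip]
    rw [Finset.sum_const, Finset.card_univ, hJcard]
    simp
  have hE : ∑ j : J, en c (U j) ≤ η * ∑ j : J, ip m (U j) (U j) := by
    rw [hT]
    calc ∑ j : J, en c (U j) ≤ ∑ j : J, η := by
          refine Finset.sum_le_sum fun j _ => ?_
          rw [hen j]
          exact (Finset.mem_filter.1 j.2).2
      _ = η * (I.card : ℝ) := by
        rw [Finset.sum_const, Finset.card_univ, hJcard, nsmul_eq_mul, mul_comm]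
  have key := hGCFL V J c m U l η hc0 hcs hm0 hcz hl hL hη hη1 (by rw [hT]; exact hkpos) hE
  rw [hT, EA.gram] at key
  have hsum : ∑ j : J, ∑ l : J, (∑ u, m u * (U j u * U l u)) ^ 2 = (I.card : ℝ) := by
    simp only [hUorth]
    have : ∀ j l : J, ((if j = l then (1 : ℝ) else 0)) ^ 2 = if j = l then 1 else 0 := by
      intro j l; split_ifs <;> simp
    simp only [this, Finset.sum_ite_eq, Finset.mem_univ, if_true]
    rw [Finset.sum_const, Finset.card_univ, hJcard]
    simp
  rw [hsum] at key
  set X := 8 * η / l * Real.log (1 / η) with hX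
  have hexp : Real.exp (-X) * Real.exp X = 1 := by
    rw [← Real.exp_add]; simp
  have hpow : (Fintype.card V : ℝ) ^ (-η) * (Fintype.card V : ℝ) ^ η = 1 := by
    rw [← Real.rpow_add hVpos]; simp
  have hXp := Real.exp_pos X
  have hYp : 0 < (Fintype.card V : ℝ) ^ η := by positivity
  have h5 : (I.card : ℝ) ^ 2 / 16 * (Real.exp (-X) * (Fintype.card V : ℝ) ^ (-η)) *
      (Real.exp X * (Fintype.card V : ℝ) ^ η) ≤
      (I.card : ℝ) * (Real.exp X * (Fintype.card V : ℝ) ^ η) :=
    mul_le_mul_of_nonneg_right key (by positivity)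
  have h6 : (I.card : ℝ) ^ 2 / 16 * (Real.exp (-X) * (Fintype.card V : ℝ) ^ (-η)) *
      (Real.exp X * (Fintype.card V : ℝ) ^ η) = (I.card : ℝ) * ((I.card : ℝ) / 16) := by
    calc _ = (I.card : ℝ) ^ 2 / 16 * ((Real.exp (-X) * Real.exp X) *
          ((Fintype.card V : ℝ) ^ (-η) * (Fintype.card V : ℝ) ^ η)) := by ring
      _ = _ := by rw [hexp, hpow]; ring
  rw [h6] at h5
  have h7 := le_of_mul_le_mul_left h5 hkpos
  linarith

end Pool.Agent.H573R3.SL
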