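import Pool.Agent.H573R3.SL.Defs

namespace Pool.Agent.H573R3.SL

open Finset Pool.Agent.H647R3.UG

theorem T_FKL (hEP : St_EP) : St_FKL := by
  intro W _ _ w m f l hw hm hl hLS hf hone hMF
  set M := vol m univ with hM
  set N := ip m f f with hN
  have hM0 : 0 ≤ M := sum_nonneg fun u _ => (hm u).le
  have hN0 : 0 < N := by
    by_contra hc
    have : M * N ≤ 0 := mul_nonpos_of_nonneg_of_nonpos hM0 (not_lt.mp hc)
    linarith
  have hM1 : 0 < M := by
    by_contra hc
    have : M * N ≤ 0 := mul_nonpos_of_nonpos_of_nonneg (not_lt.mp hc) hN0.le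
    linarith
  have hNeq : N = ∑ u, m u * f u ^ 2 := by
    rw [hN]; unfold ip
    exact sum_congr rfl fun u _ => by ring
  set h : W → ℝ := fun u => max (f u - N / 4) 0 with hh
  have hh0 : ∀ u, 0 ≤ h u := fun u => le_max_right _ _
  -- (1)
  have h1 : en w h ≤ en w f := by
    unfold en
    refine mul_le_mul_of_nonneg_left ?_ (by norm_num)
    refine sum_le_sum fun u _ => sum_le_sum fun v _ => ?_
    refine mul_le_mul_of_nonneg_left ?_ (hw u v)
    have := abs_max_sub_max_le_abs (f u - N / 4) (f v - N / 4) 0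
    rw [show f u - N / 4 - (f v - N / 4) = f u - f v by ring] at this
    exact sq_le_sq.2 this
  -- (2)
  have h2 : N / 2 ≤ ∑ u, m u * h u ^ 2 := by
    have hp : ∀ u, m u * f u ^ 2 - (N / 2) * (m u * f u) ≤ m u * h u ^ 2 := by
      intro u
      have : f u ^ 2 - (N / 2) * f u ≤ h u ^ 2 := by
        rcases le_total (f u) (N / 4) with hc | hc
        · have : h u = 0 := max_eq_right (by linarith)
          rw [this]; nlinarith [hf u]
        · have : h u = f u - N / 4 := max_eq_left (by linarith)
          rw [this]; nlinarith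
      nlinarith [hm u, mul_le_mul_of_nonneg_left this (hm u).le]
    calc N / 2 = ∑ u, (m u * f u ^ 2 - (N / 2) * (m u * f u)) := by
          rw [sum_sub_distrib, ← mul_sum, hone, ← hNeq]; ring
      _ ≤ _ := sum_le_sum fun u _ => hp u
  -- (3)
  set S : Finset W := univ.filter (fun u => N / 4 < f u) with hS
  have hSne : S.Nonempty := by
    by_contra hc
    rw [not_nonempty_iff_eq_empty] at hc
    have h3 : ∀ u, h u = 0 := by
      intro u
      have hu : u ∉ S := by rw [hc]; simp
      simp only [hS, mem_filter, mem_univ, true_and, not_lt] at hu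
      exact max_eq_right (by linarith)
    have h4 : ∑ u, m u * h u ^ 2 = 0 := sum_eq_zero fun u _ => by rw [h3 u]; ring
    linarith
  have hVS : 0 < vol m S := sum_pos (fun u _ => hm u) hSne
  have hsmall : vol m S * (N / 4) ≤ 1 := by
    calc vol m S * (N / 4) = ∑ u ∈ S, m u * (N / 4) := by
          unfold vol; rw [sum_mul]
      _ ≤ ∑ u ∈ S, m u * f u := by
          refine sum_le_sum fun u hu => ?_
          simp only [hS, mem_filter, mem_univ, true_and] at hu
          exact mul_le_mul_of_nonneg_left hu.le (hm u).le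
      _ ≤ ∑ u, m u * f u := sum_le_sum_of_subset_of_nonneg (subset_univ _)
          fun u _ _ => mul_nonneg (hm u).le (hf u)
      _ = 1 := hone
  have hsupp : ∀ v, v ∉ S → h v ^ 2 = 0 := by
    intro v hv
    simp only [hS, mem_filter, mem_univ, true_and, not_lt] at hv
    have : h v = 0 := max_eq_right (by linarith)
    rw [this]; ring
  have h3 := hEP.1 W m (fun v => h v ^ 2) S (fun v => (hm v).le) (fun v => sq_nonneg _) hsupp hVS
  have h4 : Real.log (M * N / 4) ≤ Real.log (vol m univ / vol m S) := by
    refine Real.log_le_log (by linarith) ?_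
    rw [le_div_iff₀ hVS, ← hM]
    calc M * N / 4 * vol m S = M * (vol m S * (N / 4)) := by ring
      _ ≤ M * 1 := mul_le_mul_of_nonneg_left hsmall hM0
      _ = M := mul_one _
  have hlog0 : 0 ≤ Real.log (M * N / 4) := Real.log_nonneg hMF
  have h5 : N / 2 * Real.log (M * N / 4) ≤ Ent m (fun v => h v ^ 2) := by
    refine le_trans ?_ h3
    exact mul_le_mul h2 h4 hlog0 (by linarith)
  have h6 := hLS h hh0
  calc l * Real.log (M * N / 4) * N / 2 = l * (N / 2 * Real.log (M * N / 4)) := by ring
    _ ≤ l * Ent m (fun v => h v ^ 2) := mul_le_mul_of_nonneg_left h5 hl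
    _ ≤ en w h := h6
    _ ≤ en w f := h1

end Pool.Agent.H573R3.SL
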