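import Pool.Agent.H573R3.SL.Defs

/-!
GCFL: transfer of the global correlation inequality to nonnegative masses (helper708).
-/

namespace Pool.Agent.H573R3.SL
open Finset Pool.Agent.H647R3.UG

namespace GCFL

open Classical in
theorem red {V : Type} [Fintype V] (m : V → ℝ) (hm : ∀ u, 0 ≤ m u) (F : V → ℝ)
    (hF : ∀ v, m v = 0 → F v = 0) : ∑ v, F v = ∑ v : {v // 0 < m v}, F v.1 := by
  rw [← Fintype.sum_subtype_add_sum_subtype (fun v => 0 < m v) F]
  have : ∑ i : {x // ¬ 0 < m x}, F i.1 = 0 := by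
    refine Finset.sum_eq_zero fun i _ => hF i.1 ?_
    exact le_antisymm (not_lt.1 i.2) (hm _)
  rw [this, add_zero]

open Classical in
theorem red2 {V : Type} [Fintype V] (m : V → ℝ) (hm : ∀ u, 0 ≤ m u) (F : V → V → ℝ)
    (hF : ∀ u v, m u = 0 → F u v = 0) (hF' : ∀ u v, m v = 0 → F u v = 0) :
    ∑ u, ∑ v, F u v = ∑ u : {v // 0 < m v}, ∑ v : {v // 0 < m v}, F u.1 v.1 := by
  rw [red m hm (fun u => ∑ v, F u v) (fun u hu => Finset.sum_eq_zero fun v _ => hF u v hu)]
  refine Finset.sum_congr rfl fun u _ => ?_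
  exact red m hm (fun v => F u.1 v) (fun v hv => hF' u.1 v hv)

open Classical in
theorem ip_red {V : Type} [Fintype V] (m : V → ℝ) (hm : ∀ u, 0 ≤ m u) (f g : V → ℝ) :
    ip m f g = ip (fun u : {v // 0 < m v} => m u.1) (fun u => f u.1) (fun u => g u.1) := by
  unfold ip
  exact red m hm (fun u => m u * f u * g u) (fun v hv => by simp [hv])

open Classical in
theorem en_red {V : Type} [Fintype V] (w : V → V → ℝ) (m : V → ℝ) (hm : ∀ u, 0 ≤ m u)
    (hsym : ∀ u v, w u v = w v u) (h0 : ∀ u, m u = 0 → ∀ v, w u v = 0) (f : V → ℝ) :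
    en w f = en (fun u v : {v // 0 < m v} => w u.1 v.1) (fun u => f u.1) := by
  unfold en
  congr 1
  exact red2 m hm (fun u v => w u v * (f u - f v) ^ 2) (fun u v hu => by simp [h0 u hu v])
    (fun u v hv => by simp [hsym u v, h0 v hv u])

open Classical in
theorem Ent_red {V : Type} [Fintype V] (m : V → ℝ) (hm : ∀ u, 0 ≤ m u) (g : V → ℝ) :
    Ent m g = Ent (fun u : {v // 0 < m v} => m u.1) (fun u => g u.1) := by
  unfold Ent
  rw [red m hm (fun v => m v * (g v * Real.log (g v))) (fun v hv => by simp [hv]),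
    red m hm (fun v => m v * g v) (fun v hv => by simp [hv]),
    red m hm (fun v => m v) (fun v hv => by simp [hv])]

open Classical in
theorem LSob_red {V : Type} [Fintype V] (w : V → V → ℝ) (m : V → ℝ) (hm : ∀ u, 0 ≤ m u)
    (hsym : ∀ u v, w u v = w v u) (h0 : ∀ u, m u = 0 → ∀ v, w u v = 0) (l : ℝ)
    (hL : LSob w m l) :
    LSob (fun u v : {v // 0 < m v} => w u.1 v.1) (fun u : {v // 0 < m v} => m u.1) l := by
  intro h hh
  let e : V → ℝ := fun v => if hv : 0 < m v then h ⟨v, hv⟩ else 0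
  have he : ∀ u : {v // 0 < m v}, e u.1 = h u := by
    intro u
    simp only [e, dif_pos u.2]
  have he0 : ∀ v, 0 ≤ e v := by
    intro v
    simp only [e]
    split_ifs
    · exact hh _
    · exact le_rfl
  have key := hL e he0
  rw [Ent_red m hm, en_red w m hm hsym h0] at key
  simp only [he] at key
  exact key

end GCFL

open GCFL in
theorem T_GCFL (hGCL : St_GCL) : St_GCFL := by
  classical
  intro V J _ _ _ w m U l τ hw hsym hm h0 hl hL hτ hτ1 hpos hen
  have e1 : ∀ j, ip m (U j) (U j) =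
      ip (fun u : {v // 0 < m v} => m u.1) (fun u => U j u.1) (fun u => U j u.1) :=
    fun j => ip_red m hm _ _
  have e2 : ∀ j, en w (U j) = en (fun u v : {v // 0 < m v} => w u.1 v.1) (fun u => U j u.1) :=
    fun j => en_red w m hm hsym h0 _
  have e3 : ∑ u, ∑ v, m u * m v * (∑ j, U j u * U j v) ^ 2 =
      ∑ u : {v // 0 < m v}, ∑ v : {v // 0 < m v}, m u.1 * m v.1 * (∑ j, U j u.1 * U j v.1) ^ 2 :=
    red2 m hm (fun u v => m u * m v * (∑ j, U j u * U j v) ^ 2) (fun u v hu => by simp [hu])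
      (fun u v hv => by simp [hv])
  have hne : Nonempty {v // 0 < m v} := by
    by_contra hemp
    rw [not_nonempty_iff] at hemp
    have : ∑ j, ip m (U j) (U j) = 0 := by
      refine Finset.sum_eq_zero fun j _ => ?_
      rw [e1 j]
      unfold ip
      exact Fintype.sum_empty _
    linarith
  have hcard : (1:ℝ) ≤ (Fintype.card {v // 0 < m v} : ℝ) := by
    exact_mod_cast Fintype.card_pos
  have hcard2 : (Fintype.card {v // 0 < m v} : ℝ) ≤ (Fintype.card V : ℝ) := by
    exact_mod_cast Fintype.card_subtype_le _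
  have h := hGCL {v // 0 < m v} J (fun u v => w u.1 v.1) (fun u => m u.1) (fun j u => U j u.1) l τ
    (fun u v => hw _ _) (fun u v => hsym _ _) (fun u => u.2) hl (LSob_red w m hm hsym h0 l hL) hτ hτ1
    (by rw [← Finset.sum_congr rfl fun j _ => e1 j]; exact hpos)
    (by rw [← Finset.sum_congr rfl fun j _ => e1 j, ← Finset.sum_congr rfl fun j _ => e2 j]; exact hen)
  rw [← Finset.sum_congr rfl fun j _ => e1 j] at h
  rw [e3]
  refine le_trans ?_ h
  refine mul_le_mul_of_nonneg_left ?_ (by positivity)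
  refine mul_le_mul_of_nonneg_left ?_ (Real.exp_pos _).le
  exact Real.rpow_le_rpow_of_nonpos (by linarith) hcard2 (by linarith)

end Pool.Agent.H573R3.SL
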