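import Pool.Agent.H573R3.SL.Defs
import Pool.Agent.H647R3.UG.T_GC

namespace Pool.Agent.H573R3.SL

open Finset Pool.Agent.H647R3.UG

namespace GCL

/-- Choice of the scaling factor. -/
theorem exists_scale {W : Type} [Fintype W] (w : W → W → ℝ) (m : W → ℝ) (l : ℝ)
    (hw : ∀ u v, 0 ≤ w u v) (hm : ∀ u, 0 < m u) (hl : 0 < l) :
    ∃ s0 : ℝ, 0 < s0 ∧ s0 ≤ 1 ∧ s0 * l ≤ 1 ∧ ∀ u, s0 * ∑ v, w u v ≤ m u := by
  set B : ℝ := 1 + l + ∑ u, (∑ v, w u v) / m u with hB
  have h0 : ∀ u, 0 ≤ (∑ v, w u v) / m u := fun u =>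
    div_nonneg (sum_nonneg fun v _ => hw u v) (hm u).le
  have hS : 0 ≤ ∑ u, (∑ v, w u v) / m u := sum_nonneg fun u _ => h0 u
  have hB0 : 0 < B := by rw [hB]; linarith
  refine ⟨1 / B, by positivity, ?_, ?_, ?_⟩
  · rw [div_le_one hB0, hB]; linarith
  · rw [one_div, inv_mul_le_iff₀ hB0, hB]; linarith
  · intro u
    rw [one_div, inv_mul_le_iff₀ hB0]
    have h1 : (∑ v, w u v) / m u ≤ B := by
      have := single_le_sum (f := fun u => (∑ v, w u v) / m u) (fun u _ => h0 u) (mem_univ u)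
      rw [hB]
      linarith
    rw [div_le_iff₀ (hm u)] at h1
    exact h1

theorem en_scale {W : Type} [Fintype W] (w : W → W → ℝ) (s0 : ℝ) (g : W → ℝ) :
    en (fun u v => s0 * w u v) g = s0 * en w g := by
  unfold en
  have h : ∑ u, ∑ v, s0 * w u v * (g u - g v) ^ 2 = s0 * ∑ u, ∑ v, w u v * (g u - g v) ^ 2 := by
    rw [mul_sum]
    apply sum_congr rfl
    intro u _
    rw [mul_sum]
    apply sum_congr rfl
    intro v _
    ring
  show 1 / 2 * (∑ u, ∑ v, s0 * w u v * (g u - g v) ^ 2) = _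
  rw [h]
  ring

/-- The number of steps. -/
theorem numbers (l τ s0 : ℝ) (hl : 0 < l) (hτ : 0 < τ) (hτ1 : τ ≤ 1) (h0 : 0 < s0) (h1 : s0 ≤ 1)
    (hsl : s0 * l ≤ 1) (T : ℕ) (hT : T = ⌈4 / (s0 * l) * Real.log (1 / τ)⌉₊) :
    (1 - s0 * l / 4) ^ T ≤ τ ∧
      1 / 4 * Real.exp (-(8 * τ / l * Real.log (1 / τ))) ≤ ((1 - s0 * τ / 2) ^ T) ^ 2 := by
  have hL : 0 ≤ Real.log (1 / τ) := Real.log_nonneg (by rw [le_div_iff₀ hτ]; linarith)
  have hsl0 : 0 < s0 * l := mul_pos h0 hl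
  have hA : 0 ≤ 4 / (s0 * l) * Real.log (1 / τ) := by positivity
  have h2 : 4 / (s0 * l) * Real.log (1 / τ) ≤ T := by rw [hT]; exact Nat.le_ceil _
  have h3 : (T : ℝ) < 4 / (s0 * l) * Real.log (1 / τ) + 1 := by
    rw [hT]; exact Nat.ceil_lt_add_one hA
  constructor
  · have a1 : 1 - s0 * l / 4 ≤ Real.exp (-(s0 * l / 4)) := by
      have := Real.add_one_le_exp (-(s0 * l / 4))
      linarith
    calc (1 - s0 * l / 4) ^ T ≤ Real.exp (-(s0 * l / 4)) ^ T :=
          pow_le_pow_left₀ (by linarith) a1 T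
      _ = Real.exp (T * -(s0 * l / 4)) := by rw [← Real.exp_nat_mul]
      _ ≤ Real.exp (-Real.log (1 / τ)) := by
          apply Real.exp_le_exp.2
          have a2 : Real.log (1 / τ) = (4 / (s0 * l) * Real.log (1 / τ)) * (s0 * l / 4) := by
            field_simp
          have a3 : (4 / (s0 * l) * Real.log (1 / τ)) * (s0 * l / 4) ≤ T * (s0 * l / 4) :=
            mul_le_mul_of_nonneg_right h2 (by positivity)
          linarith
      _ = τ := by
          rw [← Real.log_inv, one_div, inv_inv, Real.exp_log hτ]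
  · have hst : 0 ≤ s0 * τ := by positivity
    have hst1 : s0 * τ ≤ 1 := by nlinarith
    have h5 := GC.exp_le (s0 * τ) hst hst1
    have h6 : Real.exp (-(s0 * τ * Real.log 2)) ^ (T * 2) ≤ (1 - s0 * τ / 2) ^ (T * 2) :=
      pow_le_pow_left₀ (Real.exp_pos _).le h5 _
    rw [← pow_mul]
    refine le_trans ?_ h6
    rw [← Real.exp_nat_mul]
    have hl2 : Real.log 2 ≤ 1 := by
      have := Real.log_two_lt_d9; linarith
    have hl0 : 0 ≤ Real.log 2 := Real.log_nonneg (by norm_num)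
    have hq : Real.exp (-(2 * Real.log 2)) = 1 / 4 := by
      rw [Real.exp_neg, show 2 * Real.log 2 = Real.log 2 + Real.log 2 by ring, Real.exp_add,
        Real.exp_log (by norm_num : (0 : ℝ) < 2)]
      norm_num
    have hx0 : 0 ≤ 8 * τ / l * Real.log (1 / τ) := by positivity
    have h7 : -(2 * Real.log 2) + -(8 * τ / l * Real.log (1 / τ)) ≤
        ((T * 2 : ℕ) : ℝ) * -(s0 * τ * Real.log 2) := by
      push_cast
      have b1 : (T : ℝ) * (s0 * τ) ≤ 4 * τ / l * Real.log (1 / τ) + 1 := by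
        calc (T : ℝ) * (s0 * τ) ≤ (4 / (s0 * l) * Real.log (1 / τ) + 1) * (s0 * τ) :=
              mul_le_mul_of_nonneg_right h3.le hst
          _ = 4 * τ / l * Real.log (1 / τ) + s0 * τ := by field_simp
          _ ≤ _ := by linarith
      have b2 : (T * (s0 * τ)) * (2 * Real.log 2) ≤
          (4 * τ / l * Real.log (1 / τ) + 1) * (2 * Real.log 2) :=
        mul_le_mul_of_nonneg_right b1 (by positivity)
      have b3 : (8 * τ / l * Real.log (1 / τ)) * Real.log 2 ≤ (8 * τ / l * Real.log (1 / τ)) * 1 :=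
        mul_le_mul_of_nonneg_left hl2 hx0
      have b4 : (4 * τ / l * Real.log (1 / τ) + 1) * (2 * Real.log 2) =
          (8 * τ / l * Real.log (1 / τ)) * Real.log 2 + 2 * Real.log 2 := by ring
      nlinarith
    calc 1 / 4 * Real.exp (-(8 * τ / l * Real.log (1 / τ)))
        = Real.exp (-(2 * Real.log 2) + -(8 * τ / l * Real.log (1 / τ))) := by
          rw [Real.exp_add, hq]
      _ ≤ _ := Real.exp_le_exp.2 h7

end GCL

theorem T_GCL (hOP : St_OP) (hHDL : St_HDL) (hLC : St_LC) (hSQ : St_SQ) : St_GCL := by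
  classical
  intro W J _ _ _ w m U l τ hw hsym hm hl hLS hτ hτ1 ha hen
  set a : ℝ := ∑ j, ip m (U j) (U j) with had
  obtain ⟨s0, h0, h1, hsl, hdeg⟩ := GCL.exists_scale w m l hw hm hl
  set w' : W → W → ℝ := fun u v => s0 * w u v with hw'
  have hnet : IsNet w' m := by
    refine ⟨fun u v => mul_nonneg h0.le (hw u v), fun u v => ?_, hm, fun u => ?_⟩
    · simp only [hw']; rw [hsym u v]
    · simp only [hw']
      rw [← mul_sum]
      exact hdeg u
  have hLS' : LSob w' m (s0 * l) := by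
    intro h hh
    rw [hw', GCL.en_scale, mul_assoc]
    exact mul_le_mul_of_nonneg_left (hLS h hh) h0.le
  have hen' : ∑ j, en w' (U j) ≤ (s0 * τ) * ∑ j, ip m (U j) (U j) := by
    rw [hw']
    simp only [GCL.en_scale]
    rw [← mul_sum, mul_assoc]
    exact mul_le_mul_of_nonneg_left hen h0.le
  have hst0 : 0 ≤ s0 * τ := by positivity
  have hst1 : s0 * τ ≤ 1 := by nlinarith
  obtain ⟨T, hT⟩ : ∃ T : ℕ, T = ⌈4 / (s0 * l) * Real.log (1 / τ)⌉₊ := ⟨_, rfl⟩
  obtain ⟨hn1, hn2⟩ := GCL.numbers l τ s0 hl hτ hτ1 h0 h1 hsl T hT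
  have hsl0 : 0 < s0 * l := mul_pos h0 hl
  set δ : ℝ := (1 - s0 * l / 4) ^ T with hδ
  have hδ0 : 0 ≤ δ := pow_nonneg (by linarith) _
  have hδ1 : δ ≤ 1 := hn1.trans hτ1
  have hne : Nonempty W := by
    by_contra hcon
    rw [not_nonempty_iff] at hcon
    have : a = 0 := by
      rw [had]
      apply sum_eq_zero
      intro j _
      unfold ip
      exact Finset.sum_of_isEmpty _
    rw [this] at ha
    exact lt_irrefl _ ha
  have hM : 0 < vol m univ := sum_pos (fun u _ => hnet.pos u) univ_nonempty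
  set H : W → W → ℝ := fun u v => ((lz w' m)^[T] (dl m v)) u with hH
  set Gm : W → W → ℝ := fun u v => ∑ j, U j u * U j v with hG
  -- LC
  have l1 : a * (1 - s0 * τ / 2) ^ T ≤ ∑ u, ∑ v, m u * m v * H u v * Gm u v := by
    refine (hLC W J w' m U (s0 * τ) hnet hst0 hst1 hen' T).trans (le_of_eq ?_)
    unfold ip
    simp only [GC.it_kernel hOP w' m hnet (U _) T]
    rw [sum_comm]
    apply sum_congr rfl
    intro u _
    simp only [mul_sum, hG]
    rw [sum_comm]
    apply sum_congr rfl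
    intro v _
    apply sum_congr rfl
    intro j _
    simp only [hH]
    ring
  have hc0 : 0 ≤ a * (1 - s0 * τ / 2) ^ T := mul_nonneg ha.le (pow_nonneg (by linarith) _)
  -- Cauchy-Schwarz
  have l2 : (∑ u, ∑ v, m u * m v * H u v * Gm u v) ^ 2 ≤
      (∑ u, ∑ v, m u * m v * H u v ^ 2) * ∑ u, ∑ v, m u * m v * Gm u v ^ 2 := by
    have h := Finset.sum_sq_le_sum_mul_sum_of_sq_le_mul ((univ : Finset W) ×ˢ (univ : Finset W))
      (r := fun p => m p.1 * m p.2 * H p.1 p.2 * Gm p.1 p.2)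
      (f := fun p => m p.1 * m p.2 * H p.1 p.2 ^ 2) (g := fun p => m p.1 * m p.2 * Gm p.1 p.2 ^ 2)
      (fun p _ => mul_nonneg (mul_nonneg (hnet.pos _).le (hnet.pos _).le) (sq_nonneg _))
      (fun p _ => mul_nonneg (mul_nonneg (hnet.pos _).le (hnet.pos _).le) (sq_nonneg _))
      (fun p _ => le_of_eq (by ring))
    rwa [sum_product, sum_product, sum_product] at h
  have hn : (1 : ℝ) ≤ (Fintype.card W : ℝ) := by
    exact_mod_cast Fintype.card_pos
  have l3 : ∑ u, ∑ v, m u * m v * H u v ^ 2 ≤ 4 * (Fintype.card W : ℝ) ^ τ := by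
    rw [sum_comm]
    have h1 : ∀ v ∈ (univ : Finset W), ∑ u, m u * m v * H u v ^ 2 ≤
        m v * (4 / vol m univ * (vol m univ / m v) ^ δ) := by
      intro v _
      have e : ∑ u, m u * m v * H u v ^ 2 = m v * ip m ((lz w' m)^[T] (dl m v))
          ((lz w' m)^[T] (dl m v)) := by
        unfold ip
        rw [mul_sum]
        apply sum_congr rfl
        intro u _
        simp only [hH]
        ring
      rw [e]
      exact mul_le_mul_of_nonneg_left (hHDL W w' m (s0 * l) hnet hsl0 hsl hLS' v T)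
        (hnet.pos v).le
    refine (sum_le_sum h1).trans ((hSQ W m δ hm hδ0 hδ1).trans ?_)
    exact mul_le_mul_of_nonneg_left (Real.rpow_le_rpow_of_exponent_le hn hn1) (by norm_num)
  set Q : ℝ := ∑ u, ∑ v, m u * m v * Gm u v ^ 2 with hQ
  have hQ0 : 0 ≤ Q := sum_nonneg fun u _ => sum_nonneg fun v _ =>
    mul_nonneg (mul_nonneg (hnet.pos _).le (hnet.pos _).le) (sq_nonneg _)
  have l4 : (a * (1 - s0 * τ / 2) ^ T) ^ 2 ≤ 4 * (Fintype.card W : ℝ) ^ τ * Q :=
    (pow_le_pow_left₀ hc0 l1 2).trans (l2.trans (mul_le_mul_of_nonneg_right l3 hQ0))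
  have l5 : a ^ 2 * (1 / 4 * Real.exp (-(8 * τ / l * Real.log (1 / τ)))) ≤
      4 * (Fintype.card W : ℝ) ^ τ * Q := by
    refine le_trans ?_ l4
    rw [mul_pow]
    exact mul_le_mul_of_nonneg_left hn2 (sq_nonneg _)
  have hp : 0 < (Fintype.card W : ℝ) ^ τ := Real.rpow_pos_of_pos (by linarith) _
  have hpn : (Fintype.card W : ℝ) ^ (-τ) * (Fintype.card W : ℝ) ^ τ = 1 := by
    rw [← Real.rpow_add (by linarith), neg_add_cancel, Real.rpow_zero]
  refine le_of_mul_le_mul_right ?_ hp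
  calc a ^ 2 / 16 * (Real.exp (-(8 * τ / l * Real.log (1 / τ))) * (Fintype.card W : ℝ) ^ (-τ)) *
        (Fintype.card W : ℝ) ^ τ
      = a ^ 2 / 16 * Real.exp (-(8 * τ / l * Real.log (1 / τ))) *
        ((Fintype.card W : ℝ) ^ (-τ) * (Fintype.card W : ℝ) ^ τ) := by ring
    _ = (a ^ 2 * (1 / 4 * Real.exp (-(8 * τ / l * Real.log (1 / τ))))) / 4 := by
        rw [hpn]; ring
    _ ≤ (4 * (Fintype.card W : ℝ) ^ τ * Q) / 4 := by linarith
    _ = Q * (Fintype.card W : ℝ) ^ τ := by ring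

end Pool.Agent.H573R3.SL
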