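import Pool.Agent.H573R3.SL.Defs

namespace Pool.Agent.H573R3.SL

open Finset Pool.Agent.H647R3.UG

namespace HDL

theorem rec_bound (x : ℕ → ℝ) (q B : ℝ) (hq : 0 ≤ q) (hB : 0 ≤ B) (h0 : x 0 ≤ B)
    (h1 : ∀ s, x (s + 1) ≤ x s) (h2 : ∀ s, 0 ≤ x s → x (s + 1) ≤ x s * q) (s : ℕ) :
    x s ≤ B * q ^ s := by
  induction s with
  | zero => simpa using h0
  | succ s ih =>
    rcases le_total 0 (x s) with h | h
    · calc x (s + 1) ≤ x s * q := h2 s h
        _ ≤ B * q ^ s * q := mul_le_mul_of_nonneg_right ih hq
        _ = B * q ^ (s + 1) := by rw [pow_succ]; ring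
    · exact ((h1 s).trans h).trans (by positivity)

end HDL

theorem T_HDL (hOP : St_OP) (hFKL : St_FKL) : St_HDL := by
  intro W _ _ w m l hnet hl hl1 hls v s
  obtain ⟨-, o2, o3, o4, o5, -⟩ := hOP W w m hnet
  set f : ℕ → W → ℝ := fun s => (lz w m)^[s] (dl m v) with hf
  have hsucc : ∀ s, f (s + 1) = lz w m (f s) := fun s => Function.iterate_succ_apply' _ _ _
  have hnn : ∀ s, ∀ u, 0 ≤ f s u := by
    intro s
    induction s with
    | zero =>
      intro u
      change 0 ≤ dl m v u
      unfold dl
      split_ifs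
      · exact (div_pos one_pos (hnet.pos v)).le
      · exact le_rfl
    | succ s ih => intro u; rw [hsucc]; exact o3 _ ih u
  have hsum : ∀ s, ∑ u, m u * f s u = 1 := by
    intro s
    induction s with
    | zero =>
      change ∑ u, m u * dl m v u = 1
      unfold dl
      rw [sum_eq_single v]
      · rw [if_pos rfl, mul_one_div, div_self (hnet.pos v).ne']
      · intro u _ hu; rw [if_neg hu, mul_zero]
      · intro h; exact absurd (mem_univ v) h
    | succ s ih => rw [hsucc, o2]; exact ih
  set F : ℕ → ℝ := fun s => ip m (f s) (f s) with hF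
  have hFpos : ∀ s, 0 < F s := by
    intro s
    simp only [hF, ip]
    have h0 : ∀ u ∈ (univ : Finset W), 0 ≤ m u * f s u * f s u := fun u _ =>
      mul_nonneg (mul_nonneg (hnet.pos u).le (hnn s u)) (hnn s u)
    have h1 : ∃ u ∈ (univ : Finset W), 0 < m u * f s u * f s u := by
      by_contra hcon
      push Not at hcon
      have : ∑ u, m u * f s u = 0 := by
        apply sum_eq_zero
        intro u hu
        have h2 := le_antisymm (hcon u hu) (h0 u hu)
        rcases mul_eq_zero.1 h2 with h3 | h3
        · exact h3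
        · rw [h3, mul_zero]
      rw [hsum] at this
      exact one_ne_zero this
    exact sum_pos' h0 h1
  have hM : 0 < vol m univ := sum_pos (fun u _ => hnet.pos u) ⟨v, mem_univ v⟩
  have hmv : m v ≤ vol m univ :=
    single_le_sum (f := m) (fun u _ => (hnet.pos u).le) (mem_univ v)
  set M := vol m univ with hMd
  have hv := hnet.pos v
  have hMv : 1 ≤ M / m v := by rwa [le_div_iff₀ hv, one_mul]
  have hstep : ∀ s, F (s + 1) ≤ F s - en w (f s) / 2 := by
    intro s
    simp only [hF]
    rw [hsucc]
    exact (o5 _).trans (o4 _).le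
  have hen : ∀ g : W → ℝ, 0 ≤ en w g := by
    intro g
    unfold en
    apply mul_nonneg (by norm_num)
    exact sum_nonneg fun u _ => sum_nonneg fun u' _ => mul_nonneg (hnet.nonneg _ _) (sq_nonneg _)
  set x : ℕ → ℝ := fun s => Real.log (M * F s / 4) with hx
  have hpos : ∀ s, 0 < M * F s / 4 := fun s => by
    have := hFpos s
    positivity
  have hx1 : ∀ s, x (s + 1) ≤ x s := by
    intro s
    apply Real.log_le_log (hpos _)
    have h1 := hstep s
    have h2 := hen (f s)
    have h3 : F (s + 1) ≤ F s := by linarith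
    have : M * F (s + 1) ≤ M * F s := mul_le_mul_of_nonneg_left h3 hM.le
    linarith
  have hx2 : ∀ s, 0 ≤ x s → x (s + 1) ≤ x s * (1 - l / 4) := by
    intro s hxs
    have h1 : 1 ≤ M * F s / 4 := by
      by_contra hcon
      push Not at hcon
      have := Real.log_neg (hpos s) hcon
      exact absurd hxs (not_le.2 this)
    have h2 := hFKL W w m (f s) l hnet.nonneg hnet.pos hl.le hls (hnn s) (hsum s) h1
    have h3 := hstep s
    have h4 : F (s + 1) ≤ F s * (1 - l / 4 * x s) := by
      have e : l * Real.log (M * F s / 4) * F s / 2 = 2 * (F s * (l / 4 * x s)) := by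
        rw [hx]; ring
      have h2' : 2 * (F s * (l / 4 * x s)) ≤ en w (f s) := by rw [← e]; exact h2
      calc F (s + 1) ≤ F s - en w (f s) / 2 := h3
        _ ≤ F s - F s * (l / 4 * x s) := by linarith
        _ = _ := by ring
    have h5 : 0 < 1 - l / 4 * x s := by
      have h6 : 0 < F s * (1 - l / 4 * x s) := lt_of_lt_of_le (hFpos _) h4
      exact (pos_iff_pos_of_mul_pos h6).1 (hFpos s)
    have h7 : M * F (s + 1) / 4 ≤ (M * F s / 4) * (1 - l / 4 * x s) := by
      have : M * F (s + 1) ≤ M * (F s * (1 - l / 4 * x s)) := mul_le_mul_of_nonneg_left h4 hM.le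
      calc M * F (s + 1) / 4 ≤ M * (F s * (1 - l / 4 * x s)) / 4 := by linarith
        _ = _ := by ring
    calc x (s + 1) ≤ Real.log ((M * F s / 4) * (1 - l / 4 * x s)) :=
          Real.log_le_log (hpos _) h7
      _ = x s + Real.log (1 - l / 4 * x s) := Real.log_mul (hpos s).ne' h5.ne'
      _ ≤ x s - l / 4 * x s := by
          have := Real.log_le_sub_one_of_pos h5
          linarith
      _ = x s * (1 - l / 4) := by ring
  have hx0 : x 0 ≤ Real.log (M / m v) := by
    have h1 : F 0 = 1 / m v := by
      change ip m (dl m v) (dl m v) = _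
      unfold ip dl
      rw [sum_eq_single v]
      · rw [if_pos rfl]
        field_simp
      · intro u _ hu; rw [if_neg hu, mul_zero]
      · intro h; exact absurd (mem_univ v) h
    apply Real.log_le_log (hpos 0)
    rw [h1]
    have h2 : 0 < M / m v := by positivity
    have h3 : M * (1 / m v) / 4 = M / m v / 4 := by ring
    rw [h3]
    linarith
  have hfin : x s ≤ Real.log (M / m v) * (1 - l / 4) ^ s :=
    HDL.rec_bound x (1 - l / 4) _ (by linarith) (Real.log_nonneg hMv) hx0 hx1 hx2 s
  have h1 : M * F s / 4 ≤ (M / m v) ^ ((1 - l / 4) ^ s : ℝ) := by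
    rw [Real.rpow_def_of_pos (by positivity), ← Real.exp_log (hpos s)]
    exact Real.exp_le_exp.2 hfin
  change F s ≤ _
  rw [div_mul_eq_mul_div, le_div_iff₀ hM]
  linarith

end Pool.Agent.H573R3.SL
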