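import Pool.Agent.H573R3.SL.Defs

/-!
Choice of the parameters.
-/

namespace Pool.Agent.H573R3.SL

open Finset Pool.Agent.H647R3.UG

namespace MAINL

theorem log_bd {ε : ℝ} (hε : 0 < ε) (hε1 : ε ≤ 1) : 1 / 2 ≤ Real.log (2 / ε) := by
  have h1 : (1 : ℝ) / 2 ≤ Real.log 2 := by
    have := Real.log_two_gt_d9
    linarith
  refine h1.trans (Real.log_le_log (by norm_num) ?_)
  rw [le_div_iff₀ hε]
  linarith

/-- lower bound of the size of the step -/
theorem stp_bd (γ ε n : ℝ) (hγ : 0 < γ) (hγ1 : γ < 1) (hε : 0 < ε)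
    (hε1 : ε ≤ γ ^ 2 / 24576) (hn : 2 ≤ n) :
    (n ^ (25214976 / γ ^ 4 * (ε * Real.log (2 / ε))))⁻¹ ≤
      Real.exp (-(8 * (384 * (4 * ε / γ) / (γ / 16)) / (γ ^ 2 / (128 * Real.log n)) *
        Real.log (1 / (384 * (4 * ε / γ) / (γ / 16))))) *
      n ^ (-(384 * (4 * ε / γ) / (γ / 16))) := by
  have hn0 : 0 < n := by linarith
  have hl : 0 < Real.log n := Real.log_pos (by linarith)
  have hγ2 : γ ^ 2 ≤ 1 := by nlinarith
  have hε2 : ε ≤ 1 := by linarith
  set τ := 384 * (4 * ε / γ) / (γ / 16) with hτ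
  have e1 : τ = 24576 * ε / γ ^ 2 := by
    rw [hτ]
    field_simp
    ring
  have hτ0 : 0 < τ := by rw [e1]; positivity
  have hlog := log_bd hε hε2
  have h1 : Real.log (1 / τ) ≤ Real.log (2 / ε) := by
    apply Real.log_le_log (by positivity)
    rw [e1, div_le_div_iff₀ (by positivity) hε]
    have e2 : 2 * (24576 * ε / γ ^ 2) = 49152 * ε / γ ^ 2 := by ring
    rw [e2, one_mul, le_div_iff₀ (by positivity)]
    nlinarith
  rw [Real.rpow_def_of_pos hn0, Real.rpow_def_of_pos hn0, ← Real.exp_neg, ← Real.exp_add]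
  apply Real.exp_le_exp.2
  have h2 : 8 * τ / (γ ^ 2 / (128 * Real.log n)) * Real.log (1 / τ) ≤
      Real.log n * (25165824 / γ ^ 4 * (ε * Real.log (2 / ε))) := by
    have e3 : 8 * τ / (γ ^ 2 / (128 * Real.log n)) =
        Real.log n * (25165824 / γ ^ 4 * ε) := by
      rw [e1]
      field_simp
      ring
    rw [e3]
    have h3 : 0 ≤ Real.log n * (25165824 / γ ^ 4 * ε) := by positivity
    calc Real.log n * (25165824 / γ ^ 4 * ε) * Real.log (1 / τ)
        ≤ Real.log n * (25165824 / γ ^ 4 * ε) * Real.log (2 / ε) :=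
          mul_le_mul_of_nonneg_left h1 h3
      _ = _ := by ring
  have h4 : τ ≤ 49152 / γ ^ 4 * (ε * Real.log (2 / ε)) := by
    have h5 : τ ≤ 24576 * ε / γ ^ 4 := by
      rw [e1]
      apply div_le_div_of_nonneg_left (by positivity) (by positivity)
      nlinarith [sq_nonneg γ, pow_pos hγ 2]
    refine h5.trans ?_
    have e4 : 24576 * ε / γ ^ 4 = 49152 / γ ^ 4 * (ε * (1 / 2)) := by ring
    rw [e4]
    apply mul_le_mul_of_nonneg_left _ (by positivity)
    exact mul_le_mul_of_nonneg_left hlog hε.le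
  have h6 : Real.log n * τ ≤ Real.log n * (49152 / γ ^ 4 * (ε * Real.log (2 / ε))) :=
    mul_le_mul_of_nonneg_left h4 hl.le
  have e5 : Real.log n * (25214976 / γ ^ 4 * (ε * Real.log (2 / ε))) =
      Real.log n * (25165824 / γ ^ 4 * (ε * Real.log (2 / ε))) +
      Real.log n * (49152 / γ ^ 4 * (ε * Real.log (2 / ε))) := by ring
  rw [e5]
  have e6 : Real.log n * -τ = -(Real.log n * τ) := by ring
  rw [e6]
  linarith

end MAINL

open MAINL in
theorem T_MAINL (hS4L : St_S4L) (hFT : St_FT) : St_MAINL := by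
  refine ⟨26000000, by norm_num, ?_⟩
  intro γ hγ hγ1
  have hγ4 : γ ^ 4 ≤ 1 := pow_le_one₀ hγ.le hγ1.le
  have hγ2 : γ ^ 2 ≤ 1 := pow_le_one₀ hγ.le hγ1.le
  have hK1 : 1 ≤ 26000000 / γ ^ 4 := by
    rw [le_div_iff₀ (by positivity)]
    linarith
  intro V A E _ _ _ _ _ s t π ε D L hε hεγ hD hL hval
  have hε1 : ε ≤ 1 := by linarith
  have hlog := log_bd hε hε1
  have hz0 : 0 < ε * Real.log (2 / ε) := by positivity
  have triv : Fintype.card V ≤ D → ∃ x : V → A, (1 - γ) * (Fintype.card E : ℝ)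
      ≤ ((univ.filter fun e => π e (x (s e)) = x (t e)).card : ℝ) := by
    intro hVD
    obtain ⟨x, hx⟩ := hFT V A E L D s t π _ hVD hL hval
    refine ⟨x, le_trans ?_ hx⟩
    exact mul_le_mul_of_nonneg_right (by linarith) (by positivity)
  rcases Nat.lt_or_ge (Fintype.card V) 1 with hn | hn
  · exact triv (by omega)
  have hn1 : (1 : ℝ) ≤ (Fintype.card V : ℝ) := by exact_mod_cast hn
  by_cases hcase : Fintype.card V = 1
  · apply triv
    rw [hcase] at hD ⊢
    have : (1 : ℝ) ≤ D := by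
      rw [Nat.cast_one, Real.one_rpow, mul_one] at hD
      linarith
    exact_mod_cast this
  by_cases hε2 : γ ^ 2 / 24576 < ε
  · apply triv
    have h2 : 1 ≤ 26000000 / γ ^ 4 * (ε * Real.log (2 / ε)) := by
      calc (1 : ℝ) ≤ 26000000 / γ ^ 4 * (γ ^ 2 / 24576 * (1 / 2)) := by
            have : 26000000 / γ ^ 4 * (γ ^ 2 / 24576 * (1 / 2)) = 26000000 / (49152 * γ ^ 2) := by
              field_simp
              ring
            rw [this, le_div_iff₀ (by positivity)]
            linarith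
        _ ≤ _ := by
            apply mul_le_mul_of_nonneg_left _ (by positivity)
            exact mul_le_mul hε2.le hlog (by norm_num) hε.le
    have h3 : (Fintype.card V : ℝ) ≤
        (Fintype.card V : ℝ) ^ (26000000 / γ ^ 4 * (ε * Real.log (2 / ε))) := by
      have := Real.rpow_le_rpow_of_exponent_le hn1 h2
      rwa [Real.rpow_one] at this
    have h4 : (Fintype.card V : ℝ)
        ≤ 26000000 / γ ^ 4 *
          (Fintype.card V : ℝ) ^ (26000000 / γ ^ 4 * (ε * Real.log (2 / ε))) := by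
      have h5 : 0 ≤ (Fintype.card V : ℝ) ^ (26000000 / γ ^ 4 * (ε * Real.log (2 / ε))) := by
        positivity
      nlinarith
    exact_mod_cast h4.trans hD
  · have hε3 : ε ≤ γ ^ 2 / 24576 := not_lt.1 hε2
    have hn2 : (2 : ℝ) ≤ (Fintype.card V : ℝ) := by
      have : 2 ≤ Fintype.card V := by omega
      exact_mod_cast this
    have hl : 0 < Real.log (Fintype.card V : ℝ) := Real.log_pos (by linarith)
    have hq : 384 * (4 * ε / γ) / (γ / 16) ≤ 1 := by
      have e1 : 384 * (4 * ε / γ) / (γ / 16) = 24576 * ε / γ ^ 2 := by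
        field_simp
        ring
      rw [e1, div_le_one (by positivity)]
      linarith
    have hbd := stp_bd γ ε (Fintype.card V : ℝ) hγ hγ1 hε hε3 hn2
    have hX1 : 1 ≤ (Fintype.card V : ℝ) ^ (25214976 / γ ^ 4 * (ε * Real.log (2 / ε))) :=
      Real.one_le_rpow hn1 (by positivity)
    have hX0 : 0 < (Fintype.card V : ℝ) ^ (25214976 / γ ^ 4 * (ε * Real.log (2 / ε))) := by
      linarith
    have hXK : (Fintype.card V : ℝ) ^ (25214976 / γ ^ 4 * (ε * Real.log (2 / ε)))
        ≤ (Fintype.card V : ℝ) ^ (26000000 / γ ^ 4 * (ε * Real.log (2 / ε))) := by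
      apply Real.rpow_le_rpow_of_exponent_le hn1
      apply mul_le_mul_of_nonneg_right _ hz0.le
      exact div_le_div_of_nonneg_right (by norm_num) (by positivity)
    set S := stp (γ ^ 2 / (128 * Real.log (Fintype.card V : ℝ))) (γ / 16)
      (384 * (4 * ε / γ) / (γ / 16)) (Fintype.card V) with hS
    generalize hXdef : (Fintype.card V : ℝ) ^ (25214976 / γ ^ 4 * (ε * Real.log (2 / ε))) = X at *
    have hSge : (γ ^ 2 / 262144) * X⁻¹ ≤ S := by
      rw [hS]
      unfold stp
      have e1 : (γ / 16) ^ 2 / 1024 = γ ^ 2 / 262144 := by ring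
      rw [e1]
      exact mul_le_mul_of_nonneg_left hbd (by positivity)
    have hS0 : 0 < S := lt_of_lt_of_le (by positivity) hSge
    have hk1 : 2 ≤ (⌈2 / S⌉₊ : ℝ) * S := by
      have := Nat.le_ceil (2 / S)
      rwa [div_le_iff₀ hS0] at this
    have hk2 : (⌈2 / S⌉₊ : ℝ) + 2 ≤ D := by
      have h1 := (Nat.ceil_lt_add_one (show 0 ≤ 2 / S by positivity)).le
      have h2 : 2 / S ≤ 524288 / γ ^ 2 * X := by
        rw [div_le_iff₀ hS0]
        have h3 : 524288 / γ ^ 2 * X * ((γ ^ 2 / 262144) * X⁻¹) ≤ 524288 / γ ^ 2 * X * S :=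
          mul_le_mul_of_nonneg_left hSge (by positivity)
        have e1 : 524288 / γ ^ 2 * X * ((γ ^ 2 / 262144) * X⁻¹) = 2 := by
          field_simp
          norm_num
        linarith
      have h4 : (3 : ℝ) ≤ 3 / γ ^ 4 * X := by
        have h5 : (3 : ℝ) ≤ 3 / γ ^ 4 := by
          rw [le_div_iff₀ (by positivity)]
          linarith
        nlinarith
      have h6 : 26000000 / γ ^ 4 * X
          ≤ 26000000 / γ ^ 4 *
            (Fintype.card V : ℝ) ^ (26000000 / γ ^ 4 * (ε * Real.log (2 / ε))) :=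
        mul_le_mul_of_nonneg_left hXK (by positivity)
      have h7 : 524288 / γ ^ 2 * X ≤ 524288 / γ ^ 4 * X := by
        apply mul_le_mul_of_nonneg_right _ hX0.le
        apply div_le_div_of_nonneg_left (by norm_num) (by positivity)
        nlinarith [sq_nonneg γ, pow_pos hγ 2]
      have h8 : 0 ≤ 1 / γ ^ 4 * X := by positivity
      have e2 : 524288 / γ ^ 4 * X = 524288 * (1 / γ ^ 4 * X) := by ring
      have e3 : 3 / γ ^ 4 * X = 3 * (1 / γ ^ 4 * X) := by ring
      have e4 : 26000000 / γ ^ 4 * X = 26000000 * (1 / γ ^ 4 * X) := by ring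
      rw [e2] at h7
      rw [e3] at h4
      rw [e4] at h6
      linarith
    have hk3 : ⌈2 / S⌉₊ + 2 ≤ D := by exact_mod_cast hk2
    obtain ⟨x, hx⟩ := hS4L V A E s t π (γ ^ 2 / (128 * Real.log (Fintype.card V : ℝ))) (γ / 16)
      (4 * ε / γ) ε ⌈2 / S⌉₊ L D (by positivity) (by positivity)
      (by positivity) hq hk1 hk3 hL hval
    refine ⟨x, le_trans ?_ hx⟩
    rw [mul_comm]
    apply mul_le_mul_of_nonneg_left _ (by positivity)
    have e1 : 2 * (γ ^ 2 / (128 * Real.log (Fintype.card V : ℝ))) * Real.log (Fintype.card V : ℝ)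
        = (γ / 8) ^ 2 := by
      field_simp
      ring
    have e2 : ε / (2 * (4 * ε / γ)) = γ / 8 := by
      field_simp
      ring
    have e3 : 2 * (4 * ε / γ) ≤ γ / 8 := by
      have : 2 * (4 * ε / γ) = 8 * ε / γ := by ring
      rw [this, div_le_iff₀ hγ]
      nlinarith
    rw [e1, e2, Real.sqrt_sq (by positivity)]
    linarith

end Pool.Agent.H573R3.SL
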