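import Pool.Agent.H573R3.SL.Defs

namespace Pool.Agent.H573R3.SL

open Finset Pool.Agent.H647R3.UG

theorem T_S1L (hGCFL : St_GCFL) (hRA : St_RA) (hRB : St_RB) (hRD : St_RD) (hFB : St_FB)
    (hFV : St_FV) (hFD : St_FD) (hWT : St_WT) : St_S1L := by
  intro V A E _ _ _ _ _ s t π f L D l c0 ε' hD hL hf hvol hl hLS hc0 hε hτ hPhi hErr
  obtain ⟨hlaw, hpr0, hsymm, hdiag, hsat, hsat1⟩ := hFB V A L D hD hL
  obtain ⟨hw0, hws, hwd, hwC, hwsum, hwend, hwF, hwh, hwins⟩ := hWT V E s t
  obtain ⟨J, instJ, U, hU⟩ := hFV V A L D hD hL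
  have hFD' := hFD V A L D hD hL
  set m : V → ℝ := fun v => dgr s t v * f v ^ 2 with hm
  have hdg0 : ∀ v, 0 ≤ dgr s t v := fun v => by unfold dgr; positivity
  have hm0 : ∀ v, 0 ≤ m v := fun v => mul_nonneg (hdg0 v) (sq_nonneg _)
  have hvolm : volL s t f = ∑ v, m v := rfl
  -- the diagonal of the kernel
  have hkk : ∀ u, kr L u u = ker (dg (pr L u)) (pr L u) (pr L u) := fun u => by
    unfold kr; rw [hdiag]
  have hvr : ∀ u, vr L u / 8 ≤ kr L u u := fun u => by
    rw [hkk]; exact hRB A (pr L u) (hpr0 u) (hlaw u u).one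
  have hTk : ∑ j, ip m (U j) (U j) = ∑ u, m u * kr L u u := by
    unfold ip
    rw [sum_comm]
    refine sum_congr rfl fun u _ => ?_
    rw [hU u u, mul_sum]
    exact sum_congr rfl fun j _ => by ring
  have hT1 : PhiL s t f L / 8 ≤ ∑ j, ip m (U j) (U j) := by
    rw [hTk]
    unfold PhiL
    rw [sum_div]
    refine sum_le_sum fun u hu => ?_
    rw [mul_div_assoc]
    exact mul_le_mul_of_nonneg_left (hvr u) (hm0 u)
  have hT2 : c0 * volL s t f / 8 ≤ ∑ j, ip m (U j) (U j) :=
    le_trans (by linarith) hT1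
  have hT0 : 0 < ∑ j, ip m (U j) (U j) :=
    lt_of_lt_of_le (by positivity) hT2
  -- the energy
  have hks : ∀ u v, kr L u v = kr L v u := by
    intro u v
    rw [hU u v, hU v u]
    exact sum_congr rfl fun j _ => mul_comm _ _
  have hgram : ∀ u v, ∑ j, (U j u - U j v) ^ 2 = kr L u u + kr L v v - 2 * kr L u v := by
    intro u v
    rw [hU u u, hU v v, hU u v, mul_sum, ← sum_add_distrib, ← sum_sub_distrib]
    exact sum_congr rfl fun j _ => by ring
  have hins : ins s t (univ : Finset V) = univ := by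
    ext e; simp [ins]
  have hen : ∑ j, en (cf (wt s t) f) (U j)
      = ∑ e, f (s e) * f (t e) * (kr L (s e) (s e) + kr L (t e) (t e) - 2 * kr L (s e) (t e)) := by
    unfold en cf
    rw [← mul_sum, sum_comm]
    have h1 : ∀ u, ∑ j, ∑ v, wt s t u v * (f u * f v) * (U j u - U j v) ^ 2
        = ∑ v, wt s t u v * (f u * f v * (kr L u u + kr L v v - 2 * kr L u v)) := by
      intro u
      rw [sum_comm]
      refine sum_congr rfl fun v _ => ?_
      rw [← hgram, ← mul_sum]
      ring
    simp_rw [h1]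
    have h2 := hwF univ (fun u v => f u * f v * (kr L u u + kr L v v - 2 * kr L u v)) (by
      intro u v
      rw [hks u v]; ring)
    rw [h2, hins]
    ring
  have hen2 : ∑ j, en (cf (wt s t) f) (U j) ≤ 24 * (ε' * volL s t f) := by
    rw [hen]
    refine le_trans ?_ (mul_le_mul_of_nonneg_left hErr (by norm_num))
    unfold ErrL
    rw [mul_sum]
    refine sum_le_sum fun e _ => ?_
    have h1 : kr L (s e) (s e) + kr L (t e) (t e) - 2 * kr L (s e) (t e)
        ≤ 24 * (1 - L (sat (s e) (t e) (π e))) := by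
      rw [hkk, hkk, hsat]
      exact hRA A _ _ _ (π e) (hlaw (s e) (t e))
    have h2 := mul_le_mul_of_nonneg_left h1 (mul_nonneg (hf (s e)) (hf (t e)))
    linarith
  have hτ0 : 0 < 192 * ε' / c0 := by positivity
  have hgc := hGCFL V J (cf (wt s t) f) m U l (192 * ε' / c0)
    (fun u v => mul_nonneg (hw0 u v) (mul_nonneg (hf u) (hf v)))
    (fun u v => by unfold cf; rw [hws u v, mul_comm (f u)])
    hm0
    (by
      intro u hu v
      unfold cf
      rcases mul_eq_zero.1 hu with h1 | h1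
      · have h2 : ∑ v, wt s t u v = 0 := by rw [hwd, h1]
        have h3 := (sum_eq_zero_iff_of_nonneg (fun v _ => hw0 u v)).1 h2 v (mem_univ v)
        rw [h3, zero_mul]
      · have h2 : f u = 0 := pow_eq_zero_iff (two_ne_zero) |>.1 h1
        rw [h2, zero_mul, mul_zero])
    hl hLS hτ0 hτ hT0 (by
      refine hen2.trans ?_
      refine le_trans ?_ (mul_le_mul_of_nonneg_left hT2 hτ0.le)
      have : 192 * ε' / c0 * (c0 * volL s t f / 8) = 24 * (ε' * volL s t f) := by
        field_simp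
        ring
      rw [this])
  -- Delta
  set X := (Real.exp (-(8 * (192 * ε' / c0) / l * Real.log (1 / (192 * ε' / c0))))
        * (Fintype.card V : ℝ) ^ (-(192 * ε' / c0))) with hX
  have hX0 : 0 ≤ X := by positivity
  have hstp : stp l c0 (192 * ε' / c0) (Fintype.card V) = c0 ^ 2 / 1024 * X := rfl
  have hlow : stp l c0 (192 * ε' / c0) (Fintype.card V) * volL s t f ^ 2
      ≤ ∑ u, ∑ v, m u * m v * (kr L u v) ^ 2 := by
    simp_rw [← hU] at hgc
    refine le_trans ?_ hgc
    have h1 : (c0 * volL s t f / 8) ^ 2 ≤ (∑ j, ip m (U j) (U j)) ^ 2 :=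
      pow_le_pow_left₀ (by positivity) hT2 2
    have h2 : stp l c0 (192 * ε' / c0) (Fintype.card V) * volL s t f ^ 2 =
        (c0 * volL s t f / 8) ^ 2 / 16 * X := by rw [hstp]; ring
    rw [h2]
    exact mul_le_mul_of_nonneg_right (by linarith) hX0
  -- the kernel and dec
  have hdec : ∀ u v, (kr L u v) ^ 2 ≤ (dec L u v + dec L v u) / 2 := by
    intro u v
    obtain ⟨h1, h2, h3, h4⟩ := hRD A (pr2 L u v) (pr L u) (pr L v) (hlaw u v)
    have e1 : (∑ a, ∑ b, (pr2 L u v a b - pr L u a * pr L v b) ^ 2 / pr L u a) = dec L u v := rfl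
    have e2 : (∑ a, ∑ b, (pr2 L u v a b - pr L u a * pr L v b) ^ 2 / pr L v b) = dec L v u := by
      unfold dec
      rw [sum_comm]
      refine sum_congr rfl fun b _ => sum_congr rfl fun a _ => ?_
      rw [hsymm u v a b, mul_comm (pr L u a)]
    rw [e1] at h2 h3
    rw [e2] at h2 h4
    have h5 : kr L u v = ker (pr2 L u v) (pr L u) (pr L v) := rfl
    rw [← h5] at h1 h2
    have h6 : kr L u v ≤ 1 := by linarith
    nlinarith
  have hup : ∑ u, ∑ v, m u * m v * (kr L u v) ^ 2
      ≤ ∑ u, m u * ∑ v, m v * dec L u v := by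
    have h1 : ∑ u, ∑ v, m u * m v * (kr L u v) ^ 2
        ≤ ∑ u, ∑ v, m u * m v * ((dec L u v + dec L v u) / 2) :=
      sum_le_sum fun u hu => sum_le_sum fun v hv =>
        mul_le_mul_of_nonneg_left (hdec u v) (mul_nonneg (hm0 u) (hm0 v))
    refine h1.trans (le_of_eq ?_)
    have h2 : ∑ u, ∑ v, m u * m v * ((dec L u v + dec L v u) / 2)
        = (∑ u, ∑ v, m u * m v * dec L u v
          + ∑ u, ∑ v, m u * m v * dec L v u) / 2 := by
      rw [← sum_add_distrib, sum_div]
      refine sum_congr rfl fun u _ => ?_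
      rw [← sum_add_distrib, sum_div]
      refine sum_congr rfl fun v _ => ?_
      ring
    have h3 : ∑ u, ∑ v, m u * m v * dec L v u
        = ∑ u, ∑ v, m u * m v * dec L u v := by
      rw [sum_comm]
      refine sum_congr rfl fun u _ => sum_congr rfl fun v _ => ?_
      ring
    rw [h2, h3]
    have h4 : ∑ u, ∑ v, m u * m v * dec L u v
        = ∑ u, m u * ∑ v, m v * dec L u v := by
      refine sum_congr rfl fun u _ => ?_
      rw [mul_sum]
      exact sum_congr rfl fun v _ => by ring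
    rw [h4]
    ring
  have hex : ∃ u, stp l c0 (192 * ε' / c0) (Fintype.card V) * volL s t f
      ≤ ∑ v, m v * dec L u v := by
    by_contra hcon
    push Not at hcon
    obtain ⟨u0, -, hu0⟩ : ∃ u ∈ (univ : Finset V), 0 < m u := by
      apply exists_lt_of_sum_lt (f := fun _ => (0 : ℝ))
      rw [sum_const_zero, ← hvolm]
      exact hvol
    have h1 : ∑ u, m u * ∑ v, m v * dec L u v
        < ∑ u, m u * (stp l c0 (192 * ε' / c0) (Fintype.card V) * volL s t f) :=
      sum_lt_sum (fun u _ => mul_le_mul_of_nonneg_left (hcon u).le (hm0 u))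
        ⟨u0, mem_univ _, mul_lt_mul_of_pos_left (hcon u0) hu0⟩
    rw [← sum_mul, ← hvolm] at h1
    have h2 := hlow.trans hup
    nlinarith
  obtain ⟨u, hle⟩ := hex
  refine ⟨u, hle.trans (le_of_eq ?_)⟩
  unfold PhiL
  have h2 : ∑ a, pr L u a * ∑ v, dgr s t v * f v ^ 2 * vr (cnd L u a) v
      = ∑ v, dgr s t v * f v ^ 2 * ∑ a, pr L u a * vr (cnd L u a) v := by
    simp_rw [mul_sum]
    rw [sum_comm]
    refine sum_congr rfl fun v _ => sum_congr rfl fun a _ => ?_
    ring
  rw [h2, ← sum_sub_distrib]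
  refine sum_congr rfl fun v _ => ?_
  rw [hFD' u v]
  ring

end Pool.Agent.H573R3.SL
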