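import Pool.Agent.H573R3.SL.Defs

namespace Pool.Agent.H573R3.SL

open Finset Pool.Agent.H647R3.UG

namespace S2L

theorem vr_bounds (hFB : St_FB) {V A : Type} [Fintype V] [DecidableEq V] [Fintype A]
    [DecidableEq A] {L : ((V → A) → ℝ) →ₗ[ℝ] ℝ} {D : ℕ} (hD : 2 ≤ D) (hL : IsPE D L) (v : V) :
    0 ≤ vr L v ∧ vr L v ≤ 1 := by
  obtain ⟨hlaw, hpr0, hsymm, hdiag, hsat, hsat1⟩ := hFB V A L D hD hL
  have h1 : ∑ a, pr L v a = 1 := (hlaw v v).one
  have h2 : ∀ a, pr L v a ≤ 1 := fun a => by
    rw [← h1]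
    exact single_le_sum (fun a _ => hpr0 v a) (mem_univ a)
  have h3 : ∑ a, pr L v a ^ 2 ≤ 1 := by
    calc ∑ a, pr L v a ^ 2 ≤ ∑ a, pr L v a :=
          sum_le_sum fun a _ => by nlinarith [hpr0 v a, h2 a]
      _ = 1 := h1
  have h4 : 0 ≤ ∑ a, pr L v a ^ 2 := sum_nonneg fun a _ => sq_nonneg _
  unfold vr
  constructor <;> linarith

theorem dgr_nonneg {V E : Type} [Fintype E] [DecidableEq V] (s t : E → V) (v : V) :
    0 ≤ dgr s t v := by
  unfold dgr
  positivity

theorem phi_bounds (hFB : St_FB) {V A E : Type} [Fintype V] [DecidableEq V] [Fintype A]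
    [DecidableEq A] [Fintype E] (s t : E → V) (f : V → ℝ)
    {L : ((V → A) → ℝ) →ₗ[ℝ] ℝ} {D : ℕ} (hD : 2 ≤ D) (hL : IsPE D L) :
    0 ≤ PhiL s t f L ∧ PhiL s t f L ≤ volL s t f := by
  constructor
  · exact sum_nonneg fun v _ => mul_nonneg (mul_nonneg (dgr_nonneg s t v) (sq_nonneg _))
      (vr_bounds hFB hD hL v).1
  · refine sum_le_sum fun v _ => ?_
    have h1 : 0 ≤ dgr s t v * f v ^ 2 := mul_nonneg (dgr_nonneg s t v) (sq_nonneg _)
    have := (vr_bounds hFB hD hL v).2
    nlinarith

theorem err_nonneg (hFB : St_FB) {V A E : Type} [Fintype V] [DecidableEq V] [Fintype A]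
    [DecidableEq A] [Fintype E] (s t : E → V) (π : E → Equiv.Perm A) (f : V → ℝ)
    (hf : ∀ v, 0 ≤ f v)
    {L : ((V → A) → ℝ) →ₗ[ℝ] ℝ} {D : ℕ} (hD : 2 ≤ D) (hL : IsPE D L) :
    0 ≤ ErrL s t π f L := by
  obtain ⟨hlaw, hpr0, hsymm, hdiag, hsat, hsat1⟩ := hFB V A L D hD hL
  exact sum_nonneg fun e _ => mul_nonneg (mul_nonneg (hf _) (hf _))
    (by linarith [hsat1 (s e) (t e) (π e)])

theorem err_avg (hFL : St_FL) (hFB : St_FB) (hFC : St_FC) {V A E : Type} [Fintype V]
    [DecidableEq V] [Fintype A] [DecidableEq A] [Fintype E] (s t : E → V)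
    (π : E → Equiv.Perm A) (f : V → ℝ)
    {L : ((V → A) → ℝ) →ₗ[ℝ] ℝ} {D : ℕ} (hD : 2 ≤ D) (hL : IsPE D L) (u : V) :
    ∑ a, pr L u a * ErrL s t π f (cnd L u a) = ErrL s t π f L := by
  obtain ⟨hlaw, hpr0, hsymm, hdiag, hsat, hsat1⟩ := hFB V A L D hD hL
  obtain ⟨h1, h2, h3, h4⟩ := hFC V A L D (by omega) hL
  obtain ⟨f1, f2, f3, f4, f5, f6⟩ := hFL V A
  have hone : ∑ a, pr L u a = 1 := (hlaw u u).one
  unfold ErrL
  simp_rw [mul_sum]
  rw [sum_comm]
  refine sum_congr rfl fun e _ => ?_
  have h5 := h3 u _ (f4 2 D hD (f3 (s e) (t e) (π e)))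
  calc ∑ a, pr L u a * (f (s e) * f (t e) * (1 - cnd L u a (sat (s e) (t e) (π e))))
      = f (s e) * f (t e) * (∑ a, pr L u a -
        ∑ a, pr L u a * cnd L u a (sat (s e) (t e) (π e))) := by
        rw [← sum_sub_distrib, mul_sum]
        refine sum_congr rfl fun a _ => ?_
        ring
    _ = _ := by rw [hone, h5]

end S2L

open S2L in
theorem T_S2L (hS1L : St_S1L) (hFL : St_FL) (hFB : St_FB) (hFC : St_FC) : St_S2L := by
  intro V A E _ _ _ _ _ s t π f l c0 ε0 k hf hM hl hls hc0 hε hτ hk
  set M := volL s t f with hMdef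
  set Δ := stp l c0 (384 * ε0 / c0) (Fintype.card V) with hΔ
  have hΔ0 : 0 < Δ := by
    by_contra hneg
    push Not at hneg
    have : (k : ℝ) * Δ ≤ 0 := mul_nonpos_of_nonneg_of_nonpos (Nat.cast_nonneg k) hneg
    linarith
  -- the potential
  have key : ∀ k' : ℕ, ∀ (L : ((V → A) → ℝ) →ₗ[ℝ] ℝ) (D : ℕ), k' + 2 ≤ D → IsPE D L →
      PhiL s t f L / M + ErrL s t π f L / (ε0 * M) ≤ 2 →
      PhiL s t f L / M + ErrL s t π f L / (ε0 * M) ≤ k' * Δ →
      ∃ L' : ((V → A) → ℝ) →ₗ[ℝ] ℝ, IsPE 2 L' ∧ PhiL s t f L' ≤ c0 * M ∧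
      ErrL s t π f L' ≤ 2 * ε0 * M := by
    intro k'
    induction k' with
    | zero =>
      intro L D hD hL h2 hk'
      obtain ⟨hp0, hp1⟩ := phi_bounds hFB s t f (by omega) hL
      have he0 := err_nonneg hFB s t π f hf (by omega) hL
      have h1 : 0 ≤ PhiL s t f L / M := by positivity
      have h3 : 0 ≤ ErrL s t π f L / (ε0 * M) := by positivity
      have h4 : PhiL s t f L / M ≤ 0 := by
        push_cast at hk'; linarith
      have h5 : ErrL s t π f L / (ε0 * M) ≤ 0 := by
        push_cast at hk'; linarith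
      rw [div_le_iff₀ hM] at h4
      rw [div_le_iff₀ (by positivity)] at h5
      refine ⟨L, (hFC V A L D (by omega) hL).2.2.2 2 (by omega), ?_, ?_⟩
      · have : 0 < c0 * M := by positivity
        linarith
      · have : 0 < 2 * ε0 * M := by positivity
        linarith
    | succ k' ih =>
      intro L D hD hL h2 hk'
      obtain ⟨hp0, hp1⟩ := phi_bounds hFB s t f (by omega) hL
      have he0 := err_nonneg hFB s t π f hf (by omega) hL
      have h1 : 0 ≤ PhiL s t f L / M := by positivity
      have h3 : 0 ≤ ErrL s t π f L / (ε0 * M) := by positivity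
      have herr : ErrL s t π f L ≤ 2 * ε0 * M := by
        have h5 : ErrL s t π f L / (ε0 * M) ≤ 2 := by linarith
        rw [div_le_iff₀ (by positivity)] at h5
        linarith
      rcases le_total (PhiL s t f L) (c0 * M) with hc | hc
      · exact ⟨L, (hFC V A L D (by omega) hL).2.2.2 2 (by omega), hc, herr⟩
      · have e1 : 192 * (2 * ε0) / c0 = 384 * ε0 / c0 := by ring
        obtain ⟨u, hle⟩ := hS1L V A E s t π f L D l c0 (2 * ε0) (by omega) hL hf hM hl
          hls hc0 (by positivity) (by rw [e1]; exact hτ) hc herr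
        rw [e1, ← hΔ, ← hMdef] at hle
        obtain ⟨hlaw, hpr0, hsymm, hdiag, hsat, hsat1⟩ := hFB V A L D (by omega) hL
        have hone : ∑ a, pr L u a = 1 := (hlaw u u).one
        have havg := err_avg hFL hFB hFC s t π f (by omega) hL u
        -- some a
        have hex : ∃ a, 0 < pr L u a ∧
            PhiL s t f (cnd L u a) / M + ErrL s t π f (cnd L u a) / (ε0 * M)
              ≤ PhiL s t f L / M + ErrL s t π f L / (ε0 * M) - Δ := by
          by_contra hne
          push Not at hne
          have hs : ∑ a, pr L u a * (PhiL s t f (cnd L u a) / M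
              + ErrL s t π f (cnd L u a) / (ε0 * M))
              ≤ PhiL s t f L / M + ErrL s t π f L / (ε0 * M) - Δ := by
            have e2 : ∑ a, pr L u a * (PhiL s t f (cnd L u a) / M
              + ErrL s t π f (cnd L u a) / (ε0 * M))
              = (∑ a, pr L u a * PhiL s t f (cnd L u a)) / M + ErrL s t π f L / (ε0 * M) := by
              rw [← havg, sum_div, sum_div, ← sum_add_distrib]
              refine sum_congr rfl fun a _ => ?_
              ring
            rw [e2]
            have h6 : (∑ a, pr L u a * PhiL s t f (cnd L u a)) / M ≤ PhiL s t f L / M - Δ := by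
              rw [div_le_iff₀ hM, sub_mul, div_mul_cancel₀ _ hM.ne']
              linarith
            linarith
          -- there is a with positive probability
          have hpos' : ∃ a, 0 < pr L u a := by
            by_contra hno
            push Not at hno
            have : ∑ a, pr L u a ≤ 0 := sum_nonpos fun a _ => hno a
            linarith
          obtain ⟨a0, ha0⟩ := hpos'
          have hlt : ∑ a, pr L u a * (PhiL s t f L / M + ErrL s t π f L / (ε0 * M) - Δ)
              < ∑ a, pr L u a * (PhiL s t f (cnd L u a) / M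
              + ErrL s t π f (cnd L u a) / (ε0 * M)) := by
            apply sum_lt_sum
            · intro a _
              rcases (hpr0 u a).lt_or_eq with h | h
              · exact mul_le_mul_of_nonneg_left (hne a h).le h.le
              · rw [← h, zero_mul, zero_mul]
            · exact ⟨a0, mem_univ _, mul_lt_mul_of_pos_left (hne a0 ha0) ha0⟩
          rw [← sum_mul, hone, one_mul] at hlt
          linarith
        obtain ⟨a, ha, hle2⟩ := hex
        have hL' := (hFC V A L D (by omega) hL).2.1 u a ha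
        refine ih (cnd L u a) (D - 1) (by omega) hL' ?_ ?_
        · linarith
        · push_cast at hk'
          linarith
  intro L D hD hL hErr
  obtain ⟨hp0, hp1⟩ := phi_bounds hFB s t f (by omega) hL
  have h1 : PhiL s t f L / M ≤ 1 := by rw [div_le_one hM]; exact hp1
  have h2 : ErrL s t π f L / (ε0 * M) ≤ 1 := by rw [div_le_one (by positivity)]; exact hErr
  exact key k L D hD hL (by linarith) (by linarith)

end Pool.Agent.H573R3.SL
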