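import Pool.Agent.H573R3.SL.Defs

namespace Pool.Agent.H573R3.SL

open Finset Pool.Agent.H647R3.UG

theorem T_S3L (hFB : St_FB) (hWT : St_WT) : St_S3L := by
  intro V A E _ _ _ _ _ s t π f L hf hL
  obtain ⟨hlaw, hnn, hsym, hdg, hsat, hle⟩ := hFB V A L 2 le_rfl hL
  have hne : ∀ v : V, ∃ a : A, ∀ b, pr L v b ≤ pr L v a := by
    intro v
    have h1 := (hlaw v v).one
    have hA : Nonempty A := by
      by_contra h
      rw [not_nonempty_iff] at h
      simp at h1
    obtain ⟨a, -, ha⟩ := Finset.exists_max_image (univ : Finset A) (pr L v) univ_nonempty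
    exact ⟨a, fun b => ha b (mem_univ b)⟩
  choose x hx using hne
  refine ⟨x, ?_⟩
  have hvr : ∀ v, 1 - pr L v (x v) ≤ vr L v := by
    intro v
    unfold vr
    have : ∑ b, pr L v b ^ 2 ≤ ∑ b, pr L v b * pr L v (x v) :=
      Finset.sum_le_sum fun b _ => by
        rw [sq]; exact mul_le_mul_of_nonneg_left (hx v b) (hnn v b)
    rw [← Finset.sum_mul, (hlaw v v).one, one_mul] at this
    linarith
  have hvr0 : ∀ v, 0 ≤ vr L v := by
    intro v
    have : pr L v (x v) ≤ 1 := by
      rw [← (hlaw v v).one]
      exact Finset.single_le_sum (f := pr L v) (fun b _ => hnn v b) (mem_univ _)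
    linarith [hvr v]
  have key : ∀ u v (σ : Equiv.Perm A), σ (x u) ≠ x v →
      1 ≤ vr L u + vr L v + (1 - L (sat u v σ)) := by
    intro u v σ hne
    rw [hsat]
    have hl := hlaw u v
    have h1 : pr L u (x u) + pr L v (x v) - 1 ≤ pr2 L u v (x u) (x v) := by
      have h2 : pr L v (x v) ≤ ∑ a, (if a = x u then pr2 L u v a (x v) else pr L u a) := by
        rw [← hl.right]
        refine Finset.sum_le_sum fun a _ => ?_
        split_ifs with h
        · exact le_rfl
        · rw [← hl.left]
          exact Finset.single_le_sum (f := fun b => pr2 L u v a b)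
            (fun b _ => hl.nonneg a b) (mem_univ _)
      have h3 : ∑ a, (if a = x u then pr2 L u v a (x v) else pr L u a)
          = pr2 L u v (x u) (x v) + (1 - pr L u (x u)) := by
        rw [← hl.one]
        have h4 : ∀ a, (if a = x u then pr2 L u v a (x v) else pr L u a)
            = pr L u a + (if a = x u then pr2 L u v a (x v) - pr L u a else 0) := by
          intro a
          split_ifs <;> ring
        simp only [h4]
        rw [Finset.sum_add_distrib, Finset.sum_ite_eq' univ (x u)]
        simp
        ring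
      linarith
    have h2 : ∑ a, pr2 L u v a (σ a) + pr2 L u v (x u) (x v) ≤ 1 := by
      have h5 : ∑ a, pr2 L u v a (σ a) + pr2 L u v (x u) (x v)
          = ∑ a, (pr2 L u v a (σ a) + if a = x u then pr2 L u v a (x v) else 0) := by
        rw [Finset.sum_add_distrib, Finset.sum_ite_eq' univ (x u)]
        simp
      rw [h5, ← hl.one]
      refine Finset.sum_le_sum fun a _ => ?_
      rw [← hl.left a]
      split_ifs with h
      · subst h
        have h6 : ∑ b ∈ ({σ (x u), x v} : Finset A), pr2 L u v (x u) b
            ≤ ∑ b, pr2 L u v (x u) b :=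
          Finset.sum_le_sum_of_subset_of_nonneg (Finset.subset_univ _)
            (fun b _ _ => hl.nonneg _ b)
        rwa [Finset.sum_pair hne] at h6
      · rw [add_zero]
        exact Finset.single_le_sum (f := fun b => pr2 L u v a b)
            (fun b _ => hl.nonneg a b) (mem_univ _)
    have h3 := hvr u
    have h4 := hvr v
    linarith
  have hS : ∑ e, min (f (s e) ^ 2) (f (t e) ^ 2) * (if π e (x (s e)) = x (t e) then 0 else 1)
      ≤ ∑ e, ((f (s e) ^ 2 * vr L (s e) + f (t e) ^ 2 * vr L (t e)) +
        f (s e) * f (t e) * (1 - L (sat (s e) (t e) (π e)))) := by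
    refine Finset.sum_le_sum fun e _ => ?_
    have h1 := hle (s e) (t e) (π e)
    have h2 := hvr0 (s e)
    have h3 := hvr0 (t e)
    have f1 := hf (s e)
    have f2 := hf (t e)
    have g1 : 0 ≤ f (s e) ^ 2 * vr L (s e) := by positivity
    have g2 : 0 ≤ f (t e) ^ 2 * vr L (t e) := by positivity
    have g3 : 0 ≤ f (s e) * f (t e) * (1 - L (sat (s e) (t e) (π e))) :=
      mul_nonneg (mul_nonneg f1 f2) (by linarith)
    split_ifs with h
    · rw [mul_zero]
      linarith
    · rw [mul_one]
      have hk := key _ _ _ h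
      set m := min (f (s e) ^ 2) (f (t e) ^ 2) with hm
      have m0 : 0 ≤ m := le_min (sq_nonneg _) (sq_nonneg _)
      have m1 : m ≤ f (s e) ^ 2 := min_le_left _ _
      have m2 : m ≤ f (t e) ^ 2 := min_le_right _ _
      have m3 : m ≤ f (s e) * f (t e) := by
        rcases le_total (f (s e)) (f (t e)) with h' | h'
        · refine m1.trans ?_
          rw [sq]
          exact mul_le_mul_of_nonneg_left h' f1
        · refine m2.trans ?_
          rw [sq]
          exact mul_le_mul_of_nonneg_right h' f2
      have k1 : m * 1 ≤ m * (vr L (s e) + vr L (t e) + (1 - L (sat (s e) (t e) (π e)))) :=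
        mul_le_mul_of_nonneg_left hk m0
      have k2 : m * vr L (s e) ≤ f (s e) ^ 2 * vr L (s e) := mul_le_mul_of_nonneg_right m1 h2
      have k3 : m * vr L (t e) ≤ f (t e) ^ 2 * vr L (t e) := mul_le_mul_of_nonneg_right m2 h3
      have k4 : m * (1 - L (sat (s e) (t e) (π e))) ≤
          f (s e) * f (t e) * (1 - L (sat (s e) (t e) (π e))) :=
        mul_le_mul_of_nonneg_right m3 (by linarith)
      rw [mul_add, mul_add, mul_one] at k1
      linarith
  rw [Finset.sum_add_distrib] at hS
  have h8 := (hWT V E s t).2.2.2.2.2.2.2.1 univ (fun v => f v ^ 2 * vr L v)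
    (fun v => mul_nonneg (sq_nonneg _) (hvr0 v))
  have hins : ins s t univ = univ := by
    unfold ins
    simp
  rw [hins] at h8
  have h9 : ∑ v, dgr s t v * (f v ^ 2 * vr L v) = PhiL s t f L := by
    unfold PhiL
    exact Finset.sum_congr rfl fun v _ => by ring
  unfold ErrL
  rw [h9] at h8
  linarith

end Pool.Agent.H573R3.SL
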