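import Pool.Agent.H573R3.SL.Defs

namespace Pool.Agent.H573R3.SL

open Finset Pool.Agent.H647R3.UG

namespace S4L

/-- the term of one edge in the sampling bound -/
theorem abs_bd {I : Type} [Fintype I] (a b : I → ℝ) (ha : ∑ i, a i ^ 2 = 1)
    (hb : ∑ i, b i ^ 2 = 1) (θ : ℝ) (hθ : 0 < θ) :
    ∑ i, |a i ^ 2 - b i ^ 2| ≤ (∑ i, (a i - b i) ^ 2) / θ + θ := by
  have h1 : ∀ i, |a i ^ 2 - b i ^ 2| ≤ (a i - b i) ^ 2 / θ + θ * ((a i ^ 2 + b i ^ 2) / 2) := by
    intro i
    have e1 : a i ^ 2 - b i ^ 2 = (a i - b i) * (a i + b i) := by ring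
    rw [e1, abs_mul]
    have e2 : |a i - b i| * |a i + b i| ≤ |a i - b i| ^ 2 / θ + θ * (|a i + b i| ^ 2 / 4) := by
      have h2 := sq_nonneg (|a i - b i| - θ * |a i + b i| / 2)
      have e3 : |a i - b i| ^ 2 / θ + θ * (|a i + b i| ^ 2 / 4) - |a i - b i| * |a i + b i| =
          (|a i - b i| - θ * |a i + b i| / 2) ^ 2 / θ := by
        field_simp
        ring
      have h3 : 0 ≤ (|a i - b i| - θ * |a i + b i| / 2) ^ 2 / θ := by positivity
      linarith
    rw [sq_abs, sq_abs] at e2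
    refine e2.trans ?_
    have h4 : (a i + b i) ^ 2 ≤ 2 * (a i ^ 2 + b i ^ 2) := by nlinarith [sq_nonneg (a i - b i)]
    have h5 : θ * ((a i + b i) ^ 2 / 4) ≤ θ * ((a i ^ 2 + b i ^ 2) / 2) := by
      apply mul_le_mul_of_nonneg_left _ hθ.le
      linarith
    linarith
  refine (sum_le_sum fun i _ => h1 i).trans (le_of_eq ?_)
  rw [sum_add_distrib, ← mul_sum, ← sum_div, ← sum_div, sum_add_distrib, ha, hb]
  ring

end S4L

theorem T_S4L (hSP : St_SP) (hCS : St_CS) (hS2L : St_S2L) (hS3L : St_S3L) (hFB : St_FB)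
    (hWT : St_WT) : St_S4L := by
  intro V A E _ _ _ _ _ s t π l c0 ε0 ε k L D hl hc0 hε0 hτ hk hD hL hval
  obtain ⟨hlaw, hpr0, hsymm, hdiag, hsat, hsat1⟩ := hFB V A L D (by omega) hL
  obtain ⟨hw0, hws, hwd, hwC, hwsum, hwend, hwF, hwh, hwins⟩ := hWT V E s t
  -- a default labelling
  obtain ⟨x0⟩ : Nonempty (V → A) := by
    by_contra hne
    rw [not_nonempty_iff] at hne
    have h1 := hL.one
    have h2 : (fun _ : V → A => (1 : ℝ)) = 0 := Subsingleton.elim _ _
    rw [h2, map_zero] at h1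
    exact zero_ne_one h1
  have hd0 : ∀ v, 0 ≤ dgr s t v := fun v => by unfold dgr; positivity
  have hins : ins s t univ = univ := by
    ext e
    simp [ins]
  have hdw : dw (wt s t) = dgr s t := funext fun u => hwd u
  obtain ⟨f, hf, hLS, hen⟩ := hSP V (wt s t) l hw0 hws hl.le
  have hf0 := hf.1
  have hf1 := hf.2
  set R := Real.sqrt (2 * l * Real.log (Fintype.card V)) with hR
  have hlog : 0 ≤ Real.log (Fintype.card V) := Real.log_natCast_nonneg _
  have hR2 : R ^ 2 = 2 * l * Real.log (Fintype.card V) := Real.sq_sqrt (by positivity)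
  have hR0 : 0 ≤ R := Real.sqrt_nonneg _
  -- total energy
  have hq : ∑ e, ∑ i, (f i (s e) - f i (t e)) ^ 2 ≤ (Fintype.card E : ℝ) * R ^ 2 := by
    have h1 : ∀ i, ∑ e, (f i (s e) - f i (t e)) ^ 2 = en (wt s t) (f i) := by
      intro i
      have h2 := hwF univ (fun u v => (f i u - f i v) ^ 2) (fun u v => by ring)
      rw [hins] at h2
      unfold en
      rw [h2]
      ring
    rw [sum_comm, sum_congr rfl fun i _ => h1 i]
    refine hen.trans (le_of_eq ?_)
    rw [hdw, hwsum, hR2]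
    ring
  -- the first term
  have hT1 : ∑ e, ∑ i, |f i (s e) ^ 2 - f i (t e) ^ 2| ≤ 2 * (Fintype.card E : ℝ) * R := by
    have h1 : ∀ θ : ℝ, 0 < θ → ∑ e, ∑ i, |f i (s e) ^ 2 - f i (t e) ^ 2| ≤
        (Fintype.card E : ℝ) * R ^ 2 / θ + (Fintype.card E : ℝ) * θ := by
      intro θ hθ
      refine (sum_le_sum fun e _ => S4L.abs_bd (fun i => f i (s e)) (fun i => f i (t e))
        (hf1 _) (hf1 _) θ hθ).trans ?_
      rw [sum_add_distrib, ← sum_div, sum_const, card_univ, nsmul_eq_mul]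
      have := div_le_div_of_nonneg_right hq hθ.le
      linarith
    rcases hR0.lt_or_eq with h2 | h2
    · refine (h1 R h2).trans (le_of_eq ?_)
      field_simp
      ring
    · rw [← h2, mul_zero]
      apply le_of_forall_pos_le_add
      intro θ hθ
      have h3 := h1 (θ / ((Fintype.card E : ℝ) + 1)) (by positivity)
      rw [← h2] at h3
      have h4 : (Fintype.card E : ℝ) * (θ / ((Fintype.card E : ℝ) + 1)) ≤ θ := by
        rw [mul_div_assoc', div_le_iff₀ (by positivity)]
        nlinarith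
      have h5 : (Fintype.card E : ℝ) * 0 ^ 2 / (θ / ((Fintype.card E : ℝ) + 1)) = 0 := by
        simp
      rw [h5] at h3
      linarith
  -- each part
  have hcls : ∀ i, ∃ x : V → A,
      ∑ e, min (f i (s e) ^ 2) (f i (t e) ^ 2) * (if π e (x (s e)) = x (t e) then (0 : ℝ) else 1)
      ≤ (c0 + 2 * ε0) * volL s t (f i) + ErrL s t π (f i) L / (2 * ε0) := by
    intro i
    have hv0 : 0 ≤ volL s t (f i) :=
      sum_nonneg fun v _ => mul_nonneg (hd0 v) (sq_nonneg _)
    have he0 : 0 ≤ ErrL s t π (f i) L :=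
      sum_nonneg fun e _ => mul_nonneg (mul_nonneg (hf0 i _) (hf0 i _))
        (by linarith [hsat1 (s e) (t e) (π e)])
    rcases le_or_gt (volL s t (f i) * ε0) (ErrL s t π (f i) L) with hb | hb
    · refine ⟨x0, ?_⟩
      have h1 : ∑ e, min (f i (s e) ^ 2) (f i (t e) ^ 2) *
          (if π e (x0 (s e)) = x0 (t e) then (0 : ℝ) else 1) ≤
          ∑ e, (f i (s e) ^ 2 + f i (t e) ^ 2) / 2 := by
        refine sum_le_sum fun e _ => ?_
        have h2 : min (f i (s e) ^ 2) (f i (t e) ^ 2) ≤ f i (s e) ^ 2 := min_le_left _ _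
        have h3 : min (f i (s e) ^ 2) (f i (t e) ^ 2) ≤ f i (t e) ^ 2 := min_le_right _ _
        have h4 := sq_nonneg (f i (s e))
        have h5 := sq_nonneg (f i (t e))
        split_ifs
        · rw [mul_zero]; positivity
        · rw [mul_one]; linarith
      have h2 := hwh univ (fun v => f i v ^ 2) (fun v => sq_nonneg _)
      rw [hins] at h2
      have h2' : ∑ e, (f i (s e) ^ 2 + f i (t e) ^ 2) ≤ volL s t (f i) := h2
      rw [← sum_div] at h1
      have h3 : volL s t (f i) / 2 ≤ ErrL s t π (f i) L / (2 * ε0) := by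
        rw [div_le_div_iff₀ (by norm_num) (by positivity)]
        nlinarith
      have h4 : 0 ≤ (c0 + 2 * ε0) * volL s t (f i) := by positivity
      linarith
    · have hvpos : 0 < volL s t (f i) := by
        by_contra hc
        push Not at hc
        have h6 : volL s t (f i) * ε0 ≤ 0 := mul_nonpos_of_nonpos_of_nonneg hc hε0.le
        linarith
      have hLS' : LSob (cf (wt s t) (f i)) (fun v => dgr s t v * f i v ^ 2) l := by
        have h7 := hLS i
        unfold mf at h7
        rwa [hdw] at h7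
      obtain ⟨L', hL', hP, hE⟩ := hS2L V A E s t π (f i) l c0 ε0 k (hf0 i) hvpos hl hLS' hc0 hε0
        hτ hk L D hD hL (by linarith)
      obtain ⟨x, hx⟩ := hS3L V A E s t π (f i) L' (hf0 i) hL'
      refine ⟨x, hx.trans ?_⟩
      have : 0 ≤ ErrL s t π (f i) L / (2 * ε0) := by positivity
      linarith
  choose x hx using hcls
  obtain ⟨c, hc⟩ := hCS V E (Fin (Fintype.card V + 1)) s t (fun i v => f i v ^ 2)
    (fun i e => if π e (x i (s e)) = x i (t e) then (0 : ℝ) else 1)
    (fun i v => sq_nonneg _) hf1 (fun i e => by split_ifs <;> norm_num)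
  refine ⟨fun v => x (c v) v, ?_⟩
  -- the sums of the bounds
  have hsumvol : ∑ i, volL s t (f i) = 2 * (Fintype.card E : ℝ) := by
    unfold volL
    rw [sum_comm, ← hwsum]
    refine sum_congr rfl fun v _ => ?_
    rw [← mul_sum, hf1 v, mul_one]
  have hsumerr : ∑ i, ErrL s t π (f i) L ≤ ε * (Fintype.card E : ℝ) := by
    unfold ErrL
    rw [sum_comm]
    have h1 : ∀ e, ∑ i, f i (s e) * f i (t e) * (1 - L (sat (s e) (t e) (π e))) ≤
        1 - L (sat (s e) (t e) (π e)) := by
      intro e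
      rw [← sum_mul]
      have h2 : ∑ i, f i (s e) * f i (t e) ≤ 1 := by
        have h3 : ∀ i, f i (s e) * f i (t e) ≤ (f i (s e) ^ 2 + f i (t e) ^ 2) / 2 := by
          intro i
          nlinarith [sq_nonneg (f i (s e) - f i (t e))]
        refine (sum_le_sum fun i _ => h3 i).trans (le_of_eq ?_)
        rw [← sum_div, sum_add_distrib, hf1, hf1]
        norm_num
      have h4 : 0 ≤ 1 - L (sat (s e) (t e) (π e)) := by linarith [hsat1 (s e) (t e) (π e)]
      calc (∑ i, f i (s e) * f i (t e)) * (1 - L (sat (s e) (t e) (π e)))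
          ≤ 1 * (1 - L (sat (s e) (t e) (π e))) := mul_le_mul_of_nonneg_right h2 h4
        _ = _ := one_mul _
    refine (sum_le_sum fun e _ => h1 e).trans ?_
    rw [sum_sub_distrib]
    simp only [sum_const, card_univ, nsmul_eq_mul, mul_one]
    linarith
  have hT2 : ∑ e, ∑ i, min (f i (s e) ^ 2) (f i (t e) ^ 2) *
      (if π e (x i (s e)) = x i (t e) then (0 : ℝ) else 1)
      ≤ (c0 + 2 * ε0) * (2 * (Fintype.card E : ℝ)) + ε * (Fintype.card E : ℝ) / (2 * ε0) := by
    rw [sum_comm]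
    refine (sum_le_sum fun i _ => hx i).trans ?_
    rw [sum_add_distrib, ← mul_sum, ← sum_div, hsumvol]
    have h2 := div_le_div_of_nonneg_right hsumerr (by positivity : (0 : ℝ) ≤ 2 * ε0)
    linarith
  rw [sum_add_distrib] at hc
  -- unsatisfied edges
  have huns : ((univ.filter fun e => ¬ π e (x (c (s e)) (s e)) = x (c (t e)) (t e)).card : ℝ)
      ≤ ∑ e, (if c (s e) = c (t e) then
          (if π e (x (c (s e)) (s e)) = x (c (s e)) (t e) then (0 : ℝ) else 1) else 1) := by
    rw [card_filter]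
    push_cast
    refine sum_le_sum fun e _ => ?_
    by_cases h1 : c (s e) = c (t e)
    · rw [if_pos h1, ← h1]
      by_cases h2 : π e (x (c (s e)) (s e)) = x (c (s e)) (t e)
      · rw [if_pos h2, if_neg (not_not.2 h2)]
      · rw [if_neg h2, if_pos h2]
    · rw [if_neg h1]
      split_ifs <;> norm_num
  have hcard : ((univ.filter fun e => π e (x (c (s e)) (s e)) = x (c (t e)) (t e)).card : ℝ)
      + ((univ.filter fun e => ¬ π e (x (c (s e)) (s e)) = x (c (t e)) (t e)).card : ℝ)
      = (Fintype.card E : ℝ) := by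
    have := card_filter_add_card_filter_not (s := (univ : Finset E))
      (fun e => π e (x (c (s e)) (s e)) = x (c (t e)) (t e))
    rw [card_univ] at this
    exact_mod_cast this
  have hfin : (Fintype.card E : ℝ) * (1 - (2 * R + ε / (2 * ε0) + 2 * (c0 + 2 * ε0)))
      = (Fintype.card E : ℝ) - 2 * (Fintype.card E : ℝ) * R
        - ((c0 + 2 * ε0) * (2 * (Fintype.card E : ℝ))
          + ε * (Fintype.card E : ℝ) / (2 * ε0)) := by ring
  rw [hfin]
  have hc' : ∑ e, (if c (s e) = c (t e) then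
          (if π e (x (c (s e)) (s e)) = x (c (s e)) (t e) then (0 : ℝ) else 1) else 1) ≤
      ∑ e, ∑ i, |f i (s e) ^ 2 - f i (t e) ^ 2| +
      ∑ e, ∑ i, min (f i (s e) ^ 2) (f i (t e) ^ 2) *
      (if π e (x i (s e)) = x i (t e) then (0 : ℝ) else 1) := hc
  linarith

end Pool.Agent.H573R3.SL
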