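import Pool.Agent.H573R3.SL.Defs

namespace Pool.Agent.H573R3.SL

open Finset Pool.Agent.H647R3.UG

namespace SP

/-- change of two terms of a sum -/
theorem two {I : Type} [Fintype I] [DecidableEq I] (F F' : I → ℝ) {i i0 : I} (hne : i ≠ i0)
    (h : ∀ j, j ≠ i → j ≠ i0 → F' j = F j) :
    ∑ j, F' j = ∑ j, F j + (F' i - F i) + (F' i0 - F i0) := by
  have h1 : ∑ j, (F' j - F j) = ∑ j ∈ {i, i0}, (F' j - F j) := by
    symm
    refine sum_subset (subset_univ _) fun j _ hj => ?_
    simp only [mem_insert, mem_singleton, not_or] at hj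
    rw [h j hj.1 hj.2, sub_self]
  rw [sum_pair hne, sum_sub_distrib] at h1
  linarith

theorem psi_zero {V : Type} [Fintype V] (w : V → V → ℝ) (l : ℝ) (f : V → ℝ)
    (hf : ∀ v, f v = 0) : psi w l f = 0 := by
  simp [psi, Ent, en, hf]

theorem psi_one {V : Type} [Fintype V] (w : V → V → ℝ) (l : ℝ) :
    psi w l (fun _ => 1) = 0 := by
  have h : (∑ v, dw w v) * Real.log ((∑ v, dw w v) / ∑ v, dw w v) = 0 := by
    rcases eq_or_ne (∑ v, dw w v) 0 with h | h
    · rw [h, zero_mul]
    · rw [div_self h, Real.log_one, mul_zero]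
  simp only [psi, Ent, en, one_pow, Real.log_one, mul_zero, mul_one, sum_const_zero, sub_self, h,
    ne_eq, OfNat.ofNat_ne_zero, not_false_eq_true, zero_pow]

end SP

theorem T_SP (hSPM : St_SPM) (hSPR : St_SPR) (hSPS : St_SPS) (hSPU : St_SPU) (hSPL : St_SPL) :
    St_SP := by
  intro V _ _ w l hw hsym hl
  obtain ⟨f0, hf0, hopt0⟩ := hSPM V (Fin (Fintype.card V + 1)) w l
  obtain ⟨f, i0, hf, hfi0, hle⟩ := hSPR V (Fin (Fintype.card V + 1)) w l f0 hw (by simp) hf0
  have hopt : ∀ f' : Fin (Fintype.card V + 1) → V → ℝ, IsSoft f' →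
      ∑ i, psi w l (f' i) ≤ ∑ i, psi w l (f i) := fun f' h => (hopt0 f' h).trans hle
  have hd : ∀ v, 0 ≤ dw w v := fun v => sum_nonneg fun u _ => hw v u
  refine ⟨f, hf, fun i => ?_, ?_⟩
  · by_cases hi : i = i0
    · subst hi
      intro h _
      simp [Ent, en, cf, mf, hfi0]
    · refine hSPL V (cf w (f i)) (mf w (f i)) l
        (fun u v => mul_nonneg (hw u v) (mul_nonneg (hf.1 i u) (hf.1 i v)))
        (fun v => mul_nonneg (hd v) (sq_nonneg _)) hl fun g g' hg hg' hgg => ?_
      set f'' : Fin (Fintype.card V + 1) → V → ℝ :=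
        Function.update (Function.update f i (fun v => f i v * g v)) i0 (fun v => f i v * g' v)
        with hf''
      have e1 : f'' i = fun v => f i v * g v := by
        rw [hf'', Function.update_of_ne hi, Function.update_self]
      have e2 : f'' i0 = fun v => f i v * g' v := by
        rw [hf'', Function.update_self]
      have e3 : ∀ j, j ≠ i → j ≠ i0 → f'' j = f j := fun j h1 h2 => by
        rw [hf'', Function.update_of_ne h2, Function.update_of_ne h1]
      have hsoft : IsSoft f'' := by
        refine ⟨fun j v => ?_, fun v => ?_⟩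
        · by_cases h2 : j = i0
          · rw [h2, e2]
            exact mul_nonneg (hf.1 i v) (hg' v)
          · by_cases h1 : j = i
            · rw [h1, e1]
              exact mul_nonneg (hf.1 i v) (hg v)
            · rw [e3 j h1 h2]
              exact hf.1 j v
        · rw [SP.two (fun j => f j v ^ 2) (fun j => f'' j v ^ 2) hi
            (fun j h1 h2 => by rw [e3 j h1 h2]), hf.2 v]
          simp only [e1, e2, hfi0]
          have := hgg v
          linear_combination (f i v) ^ 2 * this
      have h1 := hopt f'' hsoft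
      rw [SP.two (fun j => psi w l (f j)) (fun j => psi w l (f'' j)) hi
        (fun j h1 h2 => by rw [e3 j h1 h2])] at h1
      simp only [e1, e2, SP.psi_zero w l (f i0) hfi0] at h1
      have h2 := hSPS V w l (f i) g g' hw hsym (hf.1 i) hg hg' hgg
      linarith
  · have h1 := hopt (fun i _ => if i = 0 then 1 else 0) ⟨fun i v => by dsimp only; split_ifs <;> norm_num,
      fun v => by simp⟩
    have h2 : ∑ i : Fin (Fintype.card V + 1), psi w l (fun _ => if i = 0 then 1 else 0) = 0 := by
      refine sum_eq_zero fun i _ => ?_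
      split_ifs with h
      · exact SP.psi_one w l
      · exact SP.psi_zero w l _ fun _ => rfl
    rw [h2] at h1
    have h3 := hSPU V (Fin (Fintype.card V + 1)) (dw w) f hd hf
    have h4 : ∑ i, psi w l (f i) = l * ∑ i, Ent (dw w) (fun v => f i v ^ 2) - ∑ i, en w (f i) := by
      rw [mul_sum, ← sum_sub_distrib]
      rfl
    have h5 := mul_le_mul_of_nonneg_left h3 hl
    linarith

end Pool.Agent.H573R3.SL
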