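import Pool.Agent.H573R3.SL.Defs

namespace Pool.Agent.H573R3.SL

open Finset Pool.Agent.H647R3.UG

namespace SPH

theorem ent_smul {V : Type} [Fintype V] (m g : V → ℝ) (c : ℝ) (hm : ∀ v, 0 ≤ m v) (hc : 0 ≤ c) :
    Ent m (fun v => c * g v) = c * Ent m g := by
  classical
  rcases hc.eq_or_lt with h0 | hc
  · subst h0
    simp [Ent]
  have h1 : ∀ v, m v * (c * g v * Real.log (c * g v))
      = c * (Real.log c * (m v * g v) + m v * (g v * Real.log (g v))) := by
    intro v
    rcases eq_or_ne (g v) 0 with h | h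
    · simp [h]
    · rw [Real.log_mul hc.ne' h]
      ring
  have h2 : ∑ v, m v * (c * g v) = c * ∑ v, m v * g v := by
    rw [Finset.mul_sum]
    exact Finset.sum_congr rfl fun v _ => by ring
  have h3 : ∑ v, m v * (c * g v * Real.log (c * g v))
      = c * (Real.log c * (∑ v, m v * g v) + ∑ v, m v * (g v * Real.log (g v))) := by
    rw [Finset.sum_congr rfl fun v _ => h1 v, ← Finset.mul_sum, Finset.sum_add_distrib,
      ← Finset.mul_sum]
  unfold Ent
  rw [h3, h2]
  rcases eq_or_ne (∑ v, m v * g v) 0 with hA | hA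
  · rw [hA]
    ring
  have hD : ∑ v, m v ≠ 0 := by
    intro hD
    apply hA
    have hz := (Finset.sum_eq_zero_iff_of_nonneg (fun v _ => hm v)).1 hD
    exact Finset.sum_eq_zero fun v hv => by rw [hz v hv, zero_mul]
  rw [mul_div_assoc, Real.log_mul hc.ne' (div_ne_zero hA hD)]
  ring

end SPH

theorem T_SPH : St_SPH := by
  intro V _ w l t f hw ht
  have h1 : Ent (dw w) (fun v => (t * f v) ^ 2) = t ^ 2 * Ent (dw w) (fun v => f v ^ 2) := by
    rw [← SPH.ent_smul (dw w) (fun v => f v ^ 2) (t ^ 2)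
      (fun v => Finset.sum_nonneg fun u _ => hw v u) (sq_nonneg t)]
    congr 1
    funext v
    ring
  have h2 : en w (fun v => t * f v) = t ^ 2 * en w f := by
    have h3 : ∑ u, ∑ v, w u v * (t * f u - t * f v) ^ 2
        = t ^ 2 * ∑ u, ∑ v, w u v * (f u - f v) ^ 2 := by
      rw [Finset.mul_sum]
      refine Finset.sum_congr rfl fun u _ => ?_
      rw [Finset.mul_sum]
      exact Finset.sum_congr rfl fun v _ => by ring
    unfold en
    rw [h3]
    ring
  unfold psi
  rw [h1, h2]
  ring

end Pool.Agent.H573R3.SL
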