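import Pool.Agent.H573R3.SL.Defs

namespace Pool.Agent.H573R3.SL

open Finset Pool.Agent.H647R3.UG

namespace SPL

theorem Ent_smul {W : Type} [Fintype W] (m g : W → ℝ) (t : ℝ) (hm : ∀ v, 0 ≤ m v)
    (hg : ∀ v, 0 ≤ g v) (ht : 0 < t) : Ent m (fun v => t * g v) = t * Ent m g := by
  unfold Ent
  have e1 : ∑ v, m v * (t * g v * Real.log (t * g v)) =
      t * Real.log t * (∑ v, m v * g v) + t * ∑ v, m v * (g v * Real.log (g v)) := by
    rw [mul_sum, mul_sum, ← sum_add_distrib]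
    refine sum_congr rfl fun v _ => ?_
    rcases (hg v).eq_or_lt with h | h
    · rw [← h]; simp
    · rw [Real.log_mul ht.ne' h.ne']; ring
  have e2 : ∑ v, m v * (t * g v) = t * ∑ v, m v * g v := by
    rw [mul_sum]
    exact sum_congr rfl fun v _ => by ring
  rw [e1, e2]
  set A := ∑ v, m v * g v with hA
  set D := ∑ v, m v with hD
  by_cases hA0 : A = 0
  · rw [hA0]; simp
  · have hD0 : D ≠ 0 := by
      intro h
      apply hA0
      have h1 : ∀ v ∈ (univ : Finset W), m v = 0 :=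
        (sum_eq_zero_iff_of_nonneg (fun v _ => hm v)).1 h
      rw [hA]
      exact sum_eq_zero fun v hv => by rw [h1 v hv, zero_mul]
    have e3 : t * A / D = t * (A / D) := by ring
    rw [e3, Real.log_mul ht.ne' (div_ne_zero hA0 hD0)]
    ring

theorem en_smul {W : Type} [Fintype W] (c : W → W → ℝ) (g : W → ℝ) (s : ℝ) :
    en c (fun v => s * g v) = s ^ 2 * en c g := by
  unfold en
  have : ∑ u, ∑ v, c u v * (s * g u - s * g v) ^ 2 =
      s ^ 2 * ∑ u, ∑ v, c u v * (g u - g v) ^ 2 := by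
    rw [mul_sum]
    refine sum_congr rfl fun u _ => ?_
    rw [mul_sum]
    exact sum_congr rfl fun v _ => by ring
  rw [this]
  ring

theorem sqrt_lip {x y : ℝ} (hx : 0 ≤ x) (hx1 : x ≤ 1 / 4) (hy : 0 ≤ y) (hy1 : y ≤ 1 / 4) :
    (Real.sqrt (1 - x) - Real.sqrt (1 - y)) ^ 2 ≤ (x - y) ^ 2 := by
  have h1 : (1 : ℝ) / 2 ≤ Real.sqrt (1 - x) := Real.le_sqrt_of_sq_le (by norm_num; linarith)
  have h2 : (1 : ℝ) / 2 ≤ Real.sqrt (1 - y) := Real.le_sqrt_of_sq_le (by norm_num; linarith)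
  have h3 := Real.sq_sqrt (by linarith : (0 : ℝ) ≤ 1 - x)
  have h4 := Real.sq_sqrt (by linarith : (0 : ℝ) ≤ 1 - y)
  set a := Real.sqrt (1 - x)
  set b := Real.sqrt (1 - y)
  have h5 : x - y = -((a - b) * (a + b)) := by nlinarith
  rw [h5, neg_sq, mul_pow]
  have h6 : 1 ≤ (a + b) ^ 2 := by nlinarith
  nlinarith [sq_nonneg (a - b)]

end SPL

theorem T_SPL (hEP : St_EP) : St_SPL := by
  intro W _ _ c m l hc hm hl hsplit h hh
  set B : ℝ := 1 + ∑ v, h v with hB
  have hsum0 : 0 ≤ ∑ v, h v := sum_nonneg fun v _ => hh v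
  have hB1 : 1 ≤ B := by linarith
  have hhB : ∀ v, h v ≤ B := fun v => by
    have := single_le_sum (f := h) (fun u _ => hh u) (mem_univ v)
    linarith
  set C : ℝ := (1 / 2) * ∑ u, ∑ v, c u v * (h u ^ 2 - h v ^ 2) ^ 2 with hC
  have hC0 : 0 ≤ C := mul_nonneg (by norm_num)
    (sum_nonneg fun u _ => sum_nonneg fun v _ => mul_nonneg (hc u v) (sq_nonneg _))
  have key : ∀ s : ℝ, 0 < s → s ≤ 1 / (2 * B) →
      l * Ent m (fun v => h v ^ 2) ≤ en c h + s ^ 2 * C := by
    intro s hs hsB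
    have hsh : ∀ v, s * h v ≤ 1 / 2 := by
      intro v
      have h1 : s * h v ≤ 1 / (2 * B) * B :=
        mul_le_mul hsB (hhB v) (hh v) (by positivity)
      have h2 : 1 / (2 * B) * B = 1 / 2 := by field_simp
      linarith
    have hsh0 : ∀ v, 0 ≤ s * h v := fun v => mul_nonneg hs.le (hh v)
    have hsq : ∀ v, (s * h v) ^ 2 ≤ 1 / 4 := fun v => by nlinarith [hsh v, hsh0 v]
    have h1 := hsplit (fun v => s * h v) (fun v => Real.sqrt (1 - (s * h v) ^ 2)) hsh0
      (fun v => Real.sqrt_nonneg _) (fun v => by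
        rw [Real.sq_sqrt (by have := hsq v; linarith)]
        ring)
    have e1 : (fun v => (s * h v) ^ 2) = fun v => s ^ 2 * (h v ^ 2) := by
      funext v; ring
    have h2 : Ent m (fun v => (s * h v) ^ 2) = s ^ 2 * Ent m (fun v => h v ^ 2) := by
      rw [e1]
      exact SPL.Ent_smul m _ _ hm (fun v => sq_nonneg _) (by positivity)
    have h3 : 0 ≤ Ent m (fun v => Real.sqrt (1 - (s * h v) ^ 2) ^ 2) :=
      hEP.2 W m _ hm (fun v => sq_nonneg _)
    have h4 : en c (fun v => Real.sqrt (1 - (s * h v) ^ 2)) ≤ s ^ 4 * C := by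
      unfold en
      rw [hC]
      have h5 : ∑ u, ∑ v, c u v *
          (Real.sqrt (1 - (s * h u) ^ 2) - Real.sqrt (1 - (s * h v) ^ 2)) ^ 2 ≤
          s ^ 4 * ∑ u, ∑ v, c u v * (h u ^ 2 - h v ^ 2) ^ 2 := by
        rw [mul_sum]
        refine sum_le_sum fun u _ => ?_
        rw [mul_sum]
        refine sum_le_sum fun v _ => ?_
        have h6 := SPL.sqrt_lip (sq_nonneg (s * h u)) (hsq u) (sq_nonneg (s * h v)) (hsq v)
        calc c u v * (Real.sqrt (1 - (s * h u) ^ 2) - Real.sqrt (1 - (s * h v) ^ 2)) ^ 2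
            ≤ c u v * ((s * h u) ^ 2 - (s * h v) ^ 2) ^ 2 :=
              mul_le_mul_of_nonneg_left h6 (hc u v)
          _ = _ := by ring
      linarith
    rw [h2, SPL.en_smul] at h1
    have h7 : l * (s ^ 2 * Ent m (fun v => h v ^ 2)) ≤ s ^ 2 * en c h + s ^ 4 * C := by
      have h8 : 0 ≤ l * Ent m (fun v => Real.sqrt (1 - (s * h v) ^ 2) ^ 2) := mul_nonneg hl h3
      nlinarith
    have h9 : s ^ 2 * (l * Ent m (fun v => h v ^ 2)) ≤ s ^ 2 * (en c h + s ^ 2 * C) := by
      calc s ^ 2 * (l * Ent m (fun v => h v ^ 2)) = l * (s ^ 2 * Ent m (fun v => h v ^ 2)) := by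
            ring
        _ ≤ s ^ 2 * en c h + s ^ 4 * C := h7
        _ = _ := by ring
    exact le_of_mul_le_mul_left h9 (by positivity)
  refine le_of_forall_pos_le_add fun ε hε => ?_
  set s : ℝ := min (1 / (2 * B)) (ε / (C + 1)) with hs
  have hs0 : 0 < s := lt_min (by positivity) (by positivity)
  have hs1 : s ≤ 1 := by
    have h1 : s ≤ 1 / (2 * B) := min_le_left _ _
    have h2 : 1 / (2 * B) ≤ 1 := by
      rw [div_le_one (by positivity)]
      linarith
    linarith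
  have hsC : s * C ≤ ε := by
    have h1 : s ≤ ε / (C + 1) := min_le_right _ _
    calc s * C ≤ ε / (C + 1) * (C + 1) := by
          apply mul_le_mul h1 (by linarith) hC0 (by positivity)
      _ = ε := by field_simp
  have h1 := key s hs0 (min_le_left _ _)
  have h2 : s ^ 2 * C ≤ s * C := by
    apply mul_le_mul_of_nonneg_right _ hC0
    nlinarith
  linarith

end Pool.Agent.H573R3.SL
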