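import Pool.Agent.H573R3.SL.Defs

namespace Pool.Agent.H573R3.SL

open Finset Pool.Agent.H647R3.UG

namespace SPM

theorem cont_div_log (D : ℝ) : Continuous (fun A : ℝ => A * Real.log (A / D)) := by
  by_cases hD : D = 0
  · subst hD
    simp only [div_zero, Real.log_zero, mul_zero]
    exact continuous_const
  · have e : (fun A : ℝ => A * Real.log (A / D)) = fun A : ℝ => D * ((A / D) * Real.log (A / D)) := by
      funext A
      rw [← mul_assoc, mul_div_cancel₀ _ hD]
    rw [e]
    exact continuous_const.mul (Real.continuous_mul_log.comp (continuous_id.div_const D))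

theorem cont_Ent {W : Type} [Fintype W] (m : W → ℝ) : Continuous (fun g : W → ℝ => Ent m g) := by
  unfold Ent
  refine Continuous.sub ?_ ?_
  · refine continuous_finset_sum _ fun v _ => continuous_const.mul ?_
    exact Real.continuous_mul_log.comp (continuous_apply v)
  · exact (cont_div_log (∑ v, m v)).comp
      (continuous_finset_sum _ fun v _ => continuous_const.mul (continuous_apply v))

theorem cont_en {W : Type} [Fintype W] (w : W → W → ℝ) : Continuous (fun g : W → ℝ => en w g) := by
  unfold en
  refine continuous_const.mul ?_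
  refine continuous_finset_sum _ fun u _ => continuous_finset_sum _ fun v _ => ?_
  exact continuous_const.mul (((continuous_apply u).sub (continuous_apply v)).pow 2)

theorem cont_psi {V : Type} [Fintype V] (w : V → V → ℝ) (l : ℝ) :
    Continuous (fun g : V → ℝ => psi w l g) := by
  unfold psi
  refine Continuous.sub (continuous_const.mul ?_) (cont_en w)
  exact (cont_Ent (dw w)).comp (continuous_pi fun v => (continuous_apply v).pow 2)

theorem compact_soft (V I : Type) [Fintype V] [Fintype I] :
    IsCompact {f : I → V → ℝ | IsSoft f} := by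
  have h1 : IsCompact (Set.pi Set.univ (fun _ : I => Set.pi Set.univ
      (fun _ : V => Set.Icc (0 : ℝ) 1))) :=
    isCompact_univ_pi fun _ => isCompact_univ_pi fun _ => isCompact_Icc
  refine h1.of_isClosed_subset ?_ ?_
  · have e : {f : I → V → ℝ | IsSoft f} = (⋂ i : I, ⋂ v : V, {f : I → V → ℝ | 0 ≤ f i v}) ∩
        ⋂ v : V, {f : I → V → ℝ | ∑ i, f i v ^ 2 = 1} := by
      ext f
      simp only [IsSoft, Set.mem_inter_iff, Set.mem_iInter]
      rfl
    rw [e]
    refine IsClosed.inter ?_ ?_
    · refine isClosed_iInter fun i => isClosed_iInter fun v => ?_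
      exact isClosed_le continuous_const ((continuous_apply v).comp (continuous_apply i))
    · refine isClosed_iInter fun v => ?_
      refine isClosed_eq ?_ continuous_const
      exact continuous_finset_sum _ fun i _ =>
        (((continuous_apply v).comp (continuous_apply i)) : Continuous fun f : I → V → ℝ => f i v).pow 2
  · intro f hf
    rw [Set.mem_univ_pi]
    intro i
    rw [Set.mem_univ_pi]
    intro v
    refine ⟨hf.1 i v, ?_⟩
    have h2 : f i v ^ 2 ≤ 1 := by
      rw [← hf.2 v]
      exact single_le_sum (f := fun i => f i v ^ 2) (fun j _ => sq_nonneg _) (mem_univ i)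
    have h3 := hf.1 i v
    nlinarith

end SPM

theorem T_SPM : St_SPM := by
  intro V I _ _ _ w l
  classical
  have hne : {f : I → V → ℝ | IsSoft f}.Nonempty := by
    obtain ⟨i1⟩ := (inferInstance : Nonempty I)
    refine ⟨fun i _ => if i = i1 then 1 else 0, ?_, ?_⟩
    · intro i v
      show (0 : ℝ) ≤ if i = i1 then 1 else 0
      split_ifs <;> norm_num
    · intro v
      rw [sum_eq_single i1]
      · simp
      · intro i _ hi
        simp [hi]
      · intro h; exact absurd (mem_univ i1) h
  have hc : Continuous (fun f : I → V → ℝ => ∑ i, psi w l (f i)) :=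
    continuous_finset_sum _ fun i _ => (SPM.cont_psi w l).comp (continuous_apply i)
  obtain ⟨f, hf, hm⟩ := (SPM.compact_soft V I).exists_isMaxOn hne hc.continuousOn
  exact ⟨f, hf, fun f' hf' => hm hf'⟩

end Pool.Agent.H573R3.SL
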