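import Pool.Agent.H573R3.SL.Defs

namespace Pool.Agent.H573R3.SL

open Finset Pool.Agent.H647R3.UG

namespace SPR

theorem relation {V I : Type} [Fintype V] [Fintype I] (p : I → V → ℝ)
    (h : Fintype.card V < Fintype.card I) :
    ∃ c : I → ℝ, c ≠ 0 ∧ ∀ v, ∑ i, c i * p i v = 0 := by
  set T : (I → ℝ) →ₗ[ℝ] (V → ℝ) := (Matrix.of fun v i => p i v).mulVecLin with hT
  have h1 : LinearMap.ker T ≠ ⊥ := by
    apply LinearMap.ker_ne_bot_of_finrank_lt
    rw [Module.finrank_fintype_fun_eq_card, Module.finrank_fintype_fun_eq_card]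
    exact h
  obtain ⟨c, hc, hc0⟩ := (Submodule.ne_bot_iff _).1 h1
  refine ⟨c, hc0, fun v => ?_⟩
  have h2 := congrFun (LinearMap.mem_ker.1 hc) v
  rw [hT, Matrix.mulVecLin_apply] at h2
  simp only [Matrix.mulVec, dotProduct, Matrix.of_apply, Pi.zero_apply] at h2
  rw [← h2]
  exact sum_congr rfl fun i _ => mul_comm _ _

end SPR

theorem T_SPR (hSPH : St_SPH) : St_SPR := by
  intro V I _ _ _ w l f hw hcard hf
  obtain ⟨c0, hc0, hrel0⟩ := SPR.relation (fun i v => f i v ^ 2) hcard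
  -- make the sum nonnegative
  obtain ⟨c, hc, hrel, hσ⟩ : ∃ c : I → ℝ, c ≠ 0 ∧ (∀ v, ∑ i, c i * f i v ^ 2 = 0) ∧
      0 ≤ ∑ i, c i * psi w l (f i) := by
    rcases le_total 0 (∑ i, c0 i * psi w l (f i)) with h | h
    · exact ⟨c0, hc0, hrel0, h⟩
    · refine ⟨-c0, neg_ne_zero.2 hc0, fun v => ?_, ?_⟩
      · simp only [Pi.neg_apply, neg_mul, sum_neg_distrib, hrel0 v, neg_zero]
      · simp only [Pi.neg_apply, neg_mul, sum_neg_distrib]
        linarith
  by_cases hneg : ∃ i, c i < 0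
  · obtain ⟨i1, hi1⟩ := hneg
    obtain ⟨i0, _, hmin⟩ := exists_min_image (univ : Finset I) c ⟨i1, mem_univ i1⟩
    have hi0 : c i0 < 0 := lt_of_le_of_lt (hmin i1 (mem_univ i1)) hi1
    have hpos : ∀ i, 0 ≤ 1 + (-1 / c i0) * c i := by
      intro i
      have h1 : c i / c i0 ≤ 1 := by
        rw [div_le_one_of_neg hi0]
        exact hmin i (mem_univ i)
      have h2 : (-1 / c i0) * c i = -(c i / c i0) := by ring
      rw [h2]
      linarith
    set s : ℝ := -1 / c i0 with hs
    have hs0 : 0 ≤ s := by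
      rw [hs]
      exact div_nonneg_of_nonpos (by norm_num) hi0.le
    refine ⟨fun i v => Real.sqrt (1 + s * c i) * f i v, i0, ⟨fun i v => ?_, fun v => ?_⟩,
      fun v => ?_, ?_⟩
    · exact mul_nonneg (Real.sqrt_nonneg _) (hf.1 i v)
    · have h1 : ∀ i, (Real.sqrt (1 + s * c i) * f i v) ^ 2 =
          f i v ^ 2 + s * (c i * f i v ^ 2) := by
        intro i
        rw [mul_pow, Real.sq_sqrt (hpos i)]
        ring
      simp only [h1]
      rw [sum_add_distrib, ← mul_sum, hrel v, hf.2 v]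
      ring
    · have h1 : 1 + s * c i0 = 0 := by
        rw [hs, div_mul_cancel₀ _ hi0.ne]
        ring
      show Real.sqrt (1 + s * c i0) * f i0 v = 0
      rw [h1, Real.sqrt_zero, zero_mul]
    · have h1 : ∀ i, psi w l (fun v => Real.sqrt (1 + s * c i) * f i v) =
          psi w l (f i) + s * (c i * psi w l (f i)) := by
        intro i
        rw [hSPH V w l (Real.sqrt (1 + s * c i)) (f i) hw (Real.sqrt_nonneg _),
          Real.sq_sqrt (hpos i)]
        ring
      rw [sum_congr rfl fun i _ => h1 i, sum_add_distrib, ← mul_sum]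
      have := mul_nonneg hs0 hσ
      linarith
  · push Not at hneg
    obtain ⟨i0, hi0⟩ : ∃ i, c i ≠ 0 := by
      by_contra hcon
      push Not at hcon
      exact hc (funext hcon)
    refine ⟨f, i0, hf, fun v => ?_, le_rfl⟩
    have h1 := (sum_eq_zero_iff_of_nonneg (s := (univ : Finset I))
      (fun i _ => mul_nonneg (hneg i) (sq_nonneg (f i v)))).1 (hrel v) i0 (mem_univ i0)
    rcases mul_eq_zero.1 h1 with h2 | h2
    · exact absurd h2 hi0
    · exact pow_eq_zero_iff two_ne_zero |>.1 h2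

end Pool.Agent.H573R3.SL
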