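import Pool.Agent.H573R3.SL.Defs

namespace Pool.Agent.H573R3.SL

open Finset Pool.Agent.H647R3.UG

namespace SPS

theorem log_split {M1 M D : ℝ} (h1 : M1 ≠ 0 → M ≠ 0) (h2 : M1 ≠ 0 → D ≠ 0) :
    M1 * Real.log (M1 / D) = M1 * Real.log (M1 / M) + M1 * Real.log (M / D) := by
  by_cases h : M1 = 0
  · rw [h]; ring
  · rw [Real.log_div h (h2 h), Real.log_div h (h1 h), Real.log_div (h1 h) (h2 h)]
    ring

theorem ent {V : Type} [Fintype V] (d x y y' : V → ℝ) (hd : ∀ v, 0 ≤ d v) (hx : ∀ v, 0 ≤ x v)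
    (hy : ∀ v, 0 ≤ y v) (hy' : ∀ v, 0 ≤ y' v) (h : ∀ v, y v + y' v = 1) :
    Ent d (fun v => x v * y v) + Ent d (fun v => x v * y' v) =
      Ent d x + (Ent (fun v => d v * x v) y + Ent (fun v => d v * x v) y') := by
  unfold Ent
  set M1 := ∑ v, d v * (x v * y v) with hM1
  set M2 := ∑ v, d v * (x v * y' v) with hM2
  set M := ∑ v, d v * x v with hM
  set D := ∑ v, d v with hD
  have e1 : ∑ v, d v * x v * y v = M1 := sum_congr rfl fun v _ => by ring
  have e2 : ∑ v, d v * x v * y' v = M2 := sum_congr rfl fun v _ => by ring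
  have e3 : M1 + M2 = M := by
    rw [hM1, hM2, hM, ← sum_add_distrib]
    refine sum_congr rfl fun v _ => ?_
    have := h v
    linear_combination (d v * x v) * this
  have hM1n : 0 ≤ M1 := sum_nonneg fun v _ => mul_nonneg (hd v) (mul_nonneg (hx v) (hy v))
  have hM2n : 0 ≤ M2 := sum_nonneg fun v _ => mul_nonneg (hd v) (mul_nonneg (hx v) (hy' v))
  have hD0 : ∀ z : V → ℝ, ∑ v, d v * z v ≠ 0 → D ≠ 0 := by
    intro z hz hc
    apply hz
    refine sum_eq_zero fun v hv => ?_
    rw [(sum_eq_zero_iff_of_nonneg fun v _ => hd v).1 hc v hv, zero_mul]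
  have g1 := log_split (M1 := M1) (M := M) (D := D) (fun h1 hc => h1 (by linarith))
    (hD0 fun v => x v * y v)
  have g2 := log_split (M1 := M2) (M := M) (D := D) (fun h1 hc => h1 (by linarith))
    (hD0 fun v => x v * y' v)
  have e4 : ∀ z : V → ℝ, (∀ v, 0 ≤ z v) → ∑ v, d v * (x v * z v * Real.log (x v * z v)) =
      ∑ v, (d v * (x v * Real.log (x v)) * z v) + ∑ v, d v * x v * (z v * Real.log (z v)) := by
    intro z _
    rw [← sum_add_distrib]
    refine sum_congr rfl fun v _ => ?_
    by_cases h1 : x v = 0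
    · rw [h1]; simp
    · by_cases h2 : z v = 0
      · rw [h2]; simp
      · rw [Real.log_mul h1 h2]; ring
  have e5 : ∑ v, (d v * (x v * Real.log (x v)) * y v) + ∑ v, (d v * (x v * Real.log (x v)) * y' v) =
      ∑ v, d v * (x v * Real.log (x v)) := by
    rw [← sum_add_distrib]
    refine sum_congr rfl fun v _ => ?_
    have := h v
    linear_combination (d v * (x v * Real.log (x v))) * this
  rw [e1, e2, e4 y hy, e4 y' hy', g1, g2]
  linear_combination e5 - Real.log (M / D) * e3

end SPS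

theorem T_SPS : St_SPS := by
  intro V _ w l f g g' hw hws hf hg hg' h
  have h1 := SPS.ent (dw w) (fun v => f v ^ 2) (fun v => g v ^ 2) (fun v => g' v ^ 2)
    (fun u => sum_nonneg fun v _ => hw u v) (fun v => sq_nonneg _) (fun v => sq_nonneg _)
    (fun v => sq_nonneg _) h
  have h2 : en w (fun v => f v * g v) + en w (fun v => f v * g' v) =
      en w f + (en (cf w f) g + en (cf w f) g') := by
    unfold en cf
    rw [← mul_add, ← mul_add, ← mul_add, ← sum_add_distrib, ← sum_add_distrib,
      ← sum_add_distrib]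
    congr 1
    refine sum_congr rfl fun u _ => ?_
    rw [← sum_add_distrib, ← sum_add_distrib, ← sum_add_distrib]
    refine sum_congr rfl fun v _ => ?_
    have hu := h u
    have hv := h v
    linear_combination (w u v * (f u ^ 2 - f u * f v)) * hu + (w u v * (f v ^ 2 - f u * f v)) * hv
  unfold psi
  simp only [mul_pow]
  have h3 : Ent (mf w f) (fun v => g v ^ 2) + Ent (mf w f) (fun v => g' v ^ 2) =
      Ent (fun v => dw w v * f v ^ 2) (fun v => g v ^ 2) +
      Ent (fun v => dw w v * f v ^ 2) (fun v => g' v ^ 2) := rfl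
  rw [h3]
  linear_combination l * h1 - h2

end Pool.Agent.H573R3.SL
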