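import Pool.Agent.H573R3.SL.Defs

namespace Pool.Agent.H573R3.SL

open Finset Pool.Agent.H647R3.UG

namespace SPU

theorem ent_le {V : Type} [Fintype V] (d g : V → ℝ) (hd : ∀ v, 0 ≤ d v) (hg : ∀ v, 0 ≤ g v)
    (hD : 0 < ∑ v, d v) :
    Ent d g ≤ ∑ v, g v * (d v * Real.log ((∑ v, d v) / d v)) := by
  classical
  unfold Ent
  rw [Finset.sum_mul, ← Finset.sum_sub_distrib]
  refine Finset.sum_le_sum fun v _ => ?_
  rcases (hd v).eq_or_lt with h | h
  · simp [← h]
  rcases (hg v).eq_or_lt with h' | h'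
  · simp [← h']
  have hM1 : d v * g v ≤ ∑ v, d v * g v :=
    Finset.single_le_sum (f := fun v => d v * g v) (fun u _ => mul_nonneg (hd u) (hg u))
      (mem_univ v)
  have hM : 0 < ∑ v, d v * g v := lt_of_lt_of_le (mul_pos h h') hM1
  have hl : Real.log (g v) - Real.log ((∑ v, d v * g v) / ∑ v, d v)
      ≤ Real.log ((∑ v, d v) / d v) := by
    rw [Real.log_div hM.ne' hD.ne', Real.log_div hD.ne' h.ne']
    have := Real.log_le_log (mul_pos h h') hM1
    rw [Real.log_mul h.ne' h'.ne'] at this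
    linarith
  have := mul_le_mul_of_nonneg_left hl (mul_pos h h').le
  nlinarith [this]

end SPU

theorem T_SPU : St_SPU := by
  intro V I _ _ d f hd hf
  classical
  obtain ⟨hf0, hf1⟩ := hf
  have hDnn : 0 ≤ ∑ v, d v := Finset.sum_nonneg fun v _ => hd v
  rcases hDnn.eq_or_lt with hD | hD
  · have hz := (Finset.sum_eq_zero_iff_of_nonneg (fun v _ => hd v)).1 hD.symm
    have : ∑ i, Ent d (fun v => f i v ^ 2) = 0 := by
      refine Finset.sum_eq_zero fun i _ => ?_
      unfold Ent
      rw [Finset.sum_eq_zero fun v hv => by rw [hz v hv, zero_mul],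
        Finset.sum_eq_zero (f := fun v => d v * f i v ^ 2) fun v hv => by rw [hz v hv, zero_mul]]
      simp
    rw [this, ← hD, zero_mul]
  have h1 : ∑ i, Ent d (fun v => f i v ^ 2)
      ≤ ∑ i, ∑ v, f i v ^ 2 * (d v * Real.log ((∑ v, d v) / d v)) :=
    Finset.sum_le_sum fun i _ => SPU.ent_le d _ hd (fun v => sq_nonneg _) hD
  refine h1.trans ?_
  rw [Finset.sum_comm]
  have h2 : ∀ v, ∑ i, f i v ^ 2 * (d v * Real.log ((∑ v, d v) / d v))
      = d v * Real.log ((∑ v, d v) / d v) := by
    intro v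
    rw [← Finset.sum_mul, hf1 v, one_mul]
  rw [Finset.sum_congr rfl fun v _ => h2 v]
  have hV : Nonempty V := by
    by_contra hne
    rw [not_nonempty_iff] at hne
    simp at hD
  have hn : 0 < (Fintype.card V : ℝ) := by exact_mod_cast Fintype.card_pos
  have h3 : ∀ v, d v * Real.log ((∑ v, d v) / d v)
      ≤ (∑ v, d v) / (Fintype.card V : ℝ) - d v + d v * Real.log (Fintype.card V) := by
    intro v
    rcases (hd v).eq_or_lt with h | h
    · rw [← h]
      simp only [zero_mul, sub_zero, add_zero]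
      positivity
    have h4 := Real.log_le_sub_one_of_pos
      (show 0 < (∑ v, d v) / d v / (Fintype.card V : ℝ) by positivity)
    rw [Real.log_div (by positivity) hn.ne'] at h4
    have h5 := mul_le_mul_of_nonneg_left h4 h.le
    have h6 : d v * ((∑ v, d v) / d v / (Fintype.card V : ℝ) - 1)
        = (∑ v, d v) / (Fintype.card V : ℝ) - d v := by
      field_simp
    rw [h6] at h5
    linarith
  refine (Finset.sum_le_sum fun v _ => h3 v).trans ?_
  rw [Finset.sum_add_distrib, Finset.sum_sub_distrib, Finset.sum_const, Finset.card_univ,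
    nsmul_eq_mul, ← Finset.sum_mul, mul_div_cancel₀ _ hn.ne']
  linarith

end Pool.Agent.H573R3.SL
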