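import Pool.Agent.H573R3.SL.Defs

namespace Pool.Agent.H573R3.SL

open Finset Pool.Agent.H647R3.UG

theorem T_SQ : St_SQ := by
  intro W _ m δ hm h0 h1
  classical
  rcases isEmpty_or_nonempty W with hW | hW
  · simp only [Finset.univ_eq_empty, Finset.sum_empty]
    positivity
  have hM : 0 < vol m univ := Finset.sum_pos (fun v _ => hm v) univ_nonempty
  have hMs : ∑ v, m v = vol m univ := rfl
  generalize vol m univ = M at hM hMs ⊢
  have hnpos : 0 < (Fintype.card W : ℝ) := by exact_mod_cast Fintype.card_pos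
  have key : ∀ v, m v * (4 / M * (M / m v) ^ δ) * (1 / (Fintype.card W : ℝ)) ^ δ
      ≤ 4 * ((1 - δ) * (m v / M) + δ * (1 / (Fintype.card W : ℝ))) := by
    intro v
    have hq : 0 < m v / M := div_pos (hm v) hM
    have h2 : (M / m v) ^ δ = (m v / M) ^ (-δ) := by
      rw [Real.rpow_neg hq.le, ← Real.inv_rpow hq.le, inv_div]
    have h3 : m v * (4 / M * (M / m v) ^ δ) = 4 * (m v / M) ^ (1 - δ) := by
      rw [h2, show (1 - δ) = 1 + (-δ) by ring, Real.rpow_add hq, Real.rpow_one]
      field_simp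
    have h4 := Real.geom_mean_le_arith_mean2_weighted (w₁ := 1 - δ) (w₂ := δ)
      (p₁ := m v / M) (p₂ := 1 / (Fintype.card W : ℝ)) (by linarith) h0 hq.le (by positivity)
      (by ring)
    rw [h3, mul_assoc]
    linarith
  have hs : (∑ v, m v * (4 / M * (M / m v) ^ δ)) * (1 / (Fintype.card W : ℝ)) ^ δ ≤ 4 := by
    rw [Finset.sum_mul]
    refine (Finset.sum_le_sum fun v _ => key v).trans ?_
    rw [← Finset.mul_sum, Finset.sum_add_distrib, ← Finset.mul_sum, ← Finset.sum_div, hMs,
      div_self hM.ne', Finset.sum_const, Finset.card_univ, nsmul_eq_mul]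
    have : (Fintype.card W : ℝ) * (δ * (1 / (Fintype.card W : ℝ))) = δ := by
      field_simp
    rw [this]
    linarith
  have hpow : (1 / (Fintype.card W : ℝ)) ^ δ = ((Fintype.card W : ℝ) ^ δ)⁻¹ := by
    rw [one_div, Real.inv_rpow hnpos.le]
  have hpp : 0 < (Fintype.card W : ℝ) ^ δ := Real.rpow_pos_of_pos hnpos _
  rw [hpow, ← div_eq_mul_inv, div_le_iff₀ hpp] at hs
  exact hs

end Pool.Agent.H573R3.SL
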