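import Pool.Agent.H573R3.SL.Top
import Pool.Agent.H647R3.UG.T_OP
import Pool.Agent.H647R3.UG.T_LC
import Pool.Agent.H647R3.UG.T_RA
import Pool.Agent.H647R3.UG.T_RB
import Pool.Agent.H647R3.UG.T_RD
import Pool.Agent.H647R3.UG.T_FL
import Pool.Agent.H647R3.UG.T_FB
import Pool.Agent.H647R3.UG.T_FC
import Pool.Agent.H647R3.UG.T_FV
import Pool.Agent.H647R3.UG.T_FD
import Pool.Agent.H647R3.UG.T_FT
import Pool.Agent.H647R3.UG.T_WT
import Pool.Agent.H573R3.SL.T_EP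
import Pool.Agent.H573R3.SL.T_FKL
import Pool.Agent.H573R3.SL.T_HDL
import Pool.Agent.H573R3.SL.T_SQ
import Pool.Agent.H573R3.SL.T_GCL
import Pool.Agent.H573R3.SL.T_GCFL
import Pool.Agent.H573R3.SL.T_SPH
import Pool.Agent.H573R3.SL.T_SPS
import Pool.Agent.H573R3.SL.T_SPU
import Pool.Agent.H573R3.SL.T_SPR
import Pool.Agent.H573R3.SL.T_SPM
import Pool.Agent.H573R3.SL.T_SPL
import Pool.Agent.H573R3.SL.T_SP
import Pool.Agent.H573R3.SL.T_CS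
import Pool.Agent.H573R3.SL.T_S1L
import Pool.Agent.H573R3.SL.T_S2L
import Pool.Agent.H573R3.SL.T_S3L
import Pool.Agent.H573R3.SL.T_S4L
import Pool.Agent.H573R3.SL.T_MAINL
import Pool.Agent.H573R3.SL.T_EAL
import Pool.Agent.H573R3.SL.T_DECL

namespace Pool.Agent.H573R3.SL

open Pool.Agent.H647R3.UG

theorem all : St_MAINL ∧ St_DECL :=
  top T_OP (T_LC T_OP) T_RA T_RB T_RD T_FL (T_FB T_FL) (T_FC T_FL) (T_FV T_FL (T_FB T_FL))
    (T_FD (T_FB T_FL)) (T_FT T_FL) T_WT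
    T_EP T_FKL T_HDL T_SQ T_GCL T_GCFL T_SPH T_SPS T_SPU T_SPR T_SPM T_SPL T_SP T_CS
    T_S1L T_S2L T_S3L T_S4L T_MAINL T_EAL T_DECL

end Pool.Agent.H573R3.SL
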