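import Pool.Agent.H573R3.SL.Defs

namespace Pool.Agent.H573R3.SL

open Finset Pool.Agent.H647R3.UG

namespace EP

/-- pointwise form of the log-sum inequality -/
theorem pt {g r : ℝ} (hg : 0 ≤ g) (hr : 0 < r) : g * Real.log r + g - r ≤ g * Real.log g := by
  rcases hg.eq_or_lt with rfl | hg
  · simp [hr.le]
  · have h1 : Real.log (r / g) ≤ r / g - 1 := Real.log_le_sub_one_of_pos (div_pos hr hg)
    rw [Real.log_div hr.ne' hg.ne'] at h1
    have h2 : g * (Real.log r - Real.log g) ≤ g * (r / g - 1) :=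
      mul_le_mul_of_nonneg_left h1 hg.le
    have h3 : g * (r / g - 1) = r - g := by
      field_simp
    rw [h3] at h2
    linarith

theorem part1 {W : Type} [Fintype W] [DecidableEq W] (m g : W → ℝ) (S : Finset W)
    (hm : ∀ v, 0 ≤ m v) (hg : ∀ v, 0 ≤ g v) (hS : ∀ v, v ∉ S → g v = 0) (hvS : 0 < vol m S) :
    (∑ v, m v * g v) * Real.log (vol m univ / vol m S) ≤ Ent m g := by
  have hmg : ∀ v ∈ univ, 0 ≤ m v * g v := fun v _ => mul_nonneg (hm v) (hg v)
  rcases (sum_nonneg hmg).eq_or_lt with hA | hA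
  · have h0 := (sum_eq_zero_iff_of_nonneg hmg).1 hA.symm
    have h1 : ∑ v, m v * (g v * Real.log (g v)) = 0 := by
      refine sum_eq_zero fun v hv => ?_
      rw [← mul_assoc, h0 v hv, zero_mul]
    rw [Ent, h1, ← hA]
    simp
  · have hvU : vol m S ≤ vol m univ :=
      sum_le_sum_of_subset_of_nonneg (subset_univ S) fun v _ _ => hm v
    have hvU0 : 0 < vol m univ := hvS.trans_le hvU
    set A := ∑ v, m v * g v with hAdef
    have hr : 0 < A / vol m S := div_pos hA hvS
    have hsupp : ∑ v, m v * g v = ∑ v ∈ S, m v * g v := by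
      symm
      refine sum_subset (subset_univ S) fun v _ hv => ?_
      rw [hS v hv, mul_zero]
    have hsupp2 : ∑ v, m v * (g v * Real.log (g v)) = ∑ v ∈ S, m v * (g v * Real.log (g v)) := by
      symm
      refine sum_subset (subset_univ S) fun v _ hv => ?_
      rw [hS v hv, zero_mul, mul_zero]
    have h2 : ∑ v ∈ S, (m v * g v * Real.log (A / vol m S) + m v * g v - m v * (A / vol m S)) ≤
        ∑ v ∈ S, m v * (g v * Real.log (g v)) := by
      refine sum_le_sum fun v _ => ?_
      have := mul_le_mul_of_nonneg_left (pt (hg v) hr) (hm v)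
      calc _ = m v * (g v * Real.log (A / vol m S) + g v - A / vol m S) := by ring
        _ ≤ _ := this
    rw [sum_sub_distrib, sum_add_distrib, ← sum_mul, ← sum_mul, ← hsupp, ← hsupp2,
      ← hAdef] at h2
    have h3 : (∑ v ∈ S, m v) * (A / vol m S) = A := by
      change vol m S * (A / vol m S) = A
      field_simp
    rw [h3, add_sub_cancel_right] at h2
    have h4 : Ent m g = (∑ v, m v * (g v * Real.log (g v))) - A * Real.log (A / vol m univ) := rfl
    rw [h4]
    rw [Real.log_div hA.ne' hvS.ne'] at h2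
    rw [Real.log_div hA.ne' hvU0.ne', Real.log_div hvU0.ne' hvS.ne']
    nlinarith

end EP

theorem T_EP : St_EP := by
  refine ⟨fun W _ _ m g S hm hg hS hv => EP.part1 m g S hm hg hS hv, fun W _ _ m g hm hg => ?_⟩
  rcases (sum_nonneg (s := univ) fun v _ => hm v).eq_or_lt with h0 | h0
  · have h1 := (sum_eq_zero_iff_of_nonneg fun v _ => hm v).1 h0.symm
    have h2 : ∑ v, m v * (g v * Real.log (g v)) = 0 :=
      sum_eq_zero fun v hv => by rw [h1 v hv, zero_mul]
    have h3 : ∑ v, m v * g v = 0 := sum_eq_zero fun v hv => by rw [h1 v hv, zero_mul]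
    rw [Ent, h2, h3]
    simp
  · have h1 : 0 < vol m univ := h0
    have h2 := EP.part1 m g univ hm hg (fun v hv => absurd (mem_univ v) hv) h1
    rwa [div_self h1.ne', Real.log_one, mul_zero] at h2

end Pool.Agent.H573R3.SL
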