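import Pool.Agent.H573R3.SL.Top
import Pool.Agent.H647R3.UG.T_OP
import Pool.Agent.H647R3.UG.T_LC
import Pool.Agent.H573R3.SL.T_EP
import Pool.Agent.H573R3.SL.T_FKL
import Pool.Agent.H573R3.SL.T_HDL
import Pool.Agent.H573R3.SL.T_SQ
import Pool.Agent.H573R3.SL.T_GCL
import Pool.Agent.H573R3.SL.T_GCFL
import Pool.Agent.H573R3.SL.T_SPH
import Pool.Agent.H573R3.SL.T_SPS
import Pool.Agent.H573R3.SL.T_SPU
import Pool.Agent.H573R3.SL.T_SPR
import Pool.Agent.H573R3.SL.T_SPM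
import Pool.Agent.H573R3.SL.T_SPL
import Pool.Agent.H573R3.SL.T_SP
import Pool.Agent.H573R3.SL.T_EAL
import Pool.Agent.H573R3.SL.T_DECL

namespace Pool.Agent.H573R3.SL

open Pool.Agent.H647R3.UG

theorem allSP : St_SP := T_SP T_SPM (T_SPR T_SPH) T_SPS T_SPU (T_SPL T_EP)

theorem allGCFL : St_GCFL := T_GCFL (T_GCL T_OP (T_HDL T_OP (T_FKL T_EP)) (T_LC T_OP) T_SQ)

theorem allD : St_DECL := T_DECL allSP (T_EAL allGCFL)

end Pool.Agent.H573R3.SL
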