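import Pool.Agent.H647R3.UG.Defs

/-!
Unique games and sum-of-squares of degree n^(O(eps log(1/eps))): soft decomposition of a graph into
parts with a log-Sobolev inequality. Definitions and the list of statements.
-/

namespace Pool.Agent.H573R3.SL

open Finset Pool.Agent.H647R3.UG

/-! ### definitions -/

/-- entropy functional of `g ≥ 0` with respect to the masses `m` -/
noncomputable def Ent {W : Type} [Fintype W] (m g : W → ℝ) : ℝ :=
  (∑ v, m v * (g v * Real.log (g v)))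
    - (∑ v, m v * g v) * Real.log ((∑ v, m v * g v) / ∑ v, m v)

/-- logarithmic Sobolev inequality with constant `l` for conductances `w` and masses `m` -/
def LSob {W : Type} [Fintype W] (w : W → W → ℝ) (m : W → ℝ) (l : ℝ) : Prop :=
  ∀ h : W → ℝ, (∀ v, 0 ≤ h v) → l * Ent m (fun v => h v ^ 2) ≤ en w h

/-- conductances of the soft part with amplitude `f` -/
def cf {V : Type} (w : V → V → ℝ) (f : V → ℝ) : V → V → ℝ := fun u v => w u v * (f u * f v)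

/-- degree -/
def dw {V : Type} [Fintype V] (w : V → V → ℝ) : V → ℝ := fun u => ∑ v, w u v

/-- masses of the soft part with amplitude `f` -/
def mf {V : Type} [Fintype V] (w : V → V → ℝ) (f : V → ℝ) : V → ℝ := fun u => dw w u * f u ^ 2

/-- the objective: `l` times the entropy minus the energy -/
noncomputable def psi {V : Type} [Fintype V] (w : V → V → ℝ) (l : ℝ) (f : V → ℝ) : ℝ :=
  l * Ent (dw w) (fun v => f v ^ 2) - en w f

/-- soft partition: amplitudes `f i v ≥ 0` with `∑ i, (f i v)^2 = 1` -/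
def IsSoft {V I : Type} [Fintype I] (f : I → V → ℝ) : Prop :=
  (∀ i v, 0 ≤ f i v) ∧ ∀ v, ∑ i, f i v ^ 2 = 1

/-! ### statements: entropy, heat kernel -/

/-- EP: entropy of a function supported on `S`, and nonnegativity of the entropy -/
def St_EP : Prop :=
  (∀ (W : Type) [Fintype W] [DecidableEq W] (m g : W → ℝ) (S : Finset W), (∀ v, 0 ≤ m v) →
    (∀ v, 0 ≤ g v) → (∀ v, v ∉ S → g v = 0) → 0 < vol m S →
    (∑ v, m v * g v) * Real.log (vol m univ / vol m S) ≤ Ent m g) ∧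
  (∀ (W : Type) [Fintype W] [DecidableEq W] (m g : W → ℝ), (∀ v, 0 ≤ m v) → (∀ v, 0 ≤ g v) →
    0 ≤ Ent m g)

/-- FKL: Faber-Krahn inequality from the log-Sobolev inequality -/
def St_FKL : Prop :=
  ∀ (W : Type) [Fintype W] [DecidableEq W] (w : W → W → ℝ) (m f : W → ℝ) (l : ℝ),
    (∀ u v, 0 ≤ w u v) → (∀ u, 0 < m u) → 0 ≤ l → LSob w m l → (∀ u, 0 ≤ f u) →
    ∑ u, m u * f u = 1 → 1 ≤ vol m univ * ip m f f / 4 →
    l * Real.log (vol m univ * ip m f f / 4) * ip m f f / 2 ≤ en w f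

/-- HDL: heat kernel decay -/
def St_HDL : Prop :=
  ∀ (W : Type) [Fintype W] [DecidableEq W] (w : W → W → ℝ) (m : W → ℝ) (l : ℝ),
    IsNet w m → 0 < l → l ≤ 1 → LSob w m l → ∀ (v : W) (s : ℕ),
    ip m ((lz w m)^[s] (dl m v)) ((lz w m)^[s] (dl m v))
      ≤ 4 / vol m univ * (vol m univ / m v) ^ ((1 - l / 4) ^ s : ℝ)

/-- SQ: sum of powers -/
def St_SQ : Prop :=
  ∀ (W : Type) [Fintype W] (m : W → ℝ) (δ : ℝ), (∀ v, 0 < m v) → 0 ≤ δ → δ ≤ 1 →
    ∑ v, m v * (4 / vol m univ * (vol m univ / m v) ^ δ) ≤ 4 * (Fintype.card W : ℝ) ^ δ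

/-- GCL: global correlation of vector fields of small energy, masses positive -/
def St_GCL : Prop :=
  ∀ (W J : Type) [Fintype W] [DecidableEq W] [Fintype J] (w : W → W → ℝ) (m : W → ℝ)
    (U : J → W → ℝ) (l τ : ℝ), (∀ u v, 0 ≤ w u v) → (∀ u v, w u v = w v u) → (∀ u, 0 < m u) →
    0 < l → LSob w m l → 0 < τ → τ ≤ 1 →
    0 < ∑ j, ip m (U j) (U j) → ∑ j, en w (U j) ≤ τ * ∑ j, ip m (U j) (U j) →
    (∑ j, ip m (U j) (U j)) ^ 2 / 16 * (Real.exp (-(8 * τ / l * Real.log (1 / τ)))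
        * (Fintype.card W : ℝ) ^ (-τ))
      ≤ ∑ u, ∑ v, m u * m v * (∑ j, U j u * U j v) ^ 2

/-- GCFL: the same for nonnegative masses -/
def St_GCFL : Prop :=
  ∀ (V J : Type) [Fintype V] [DecidableEq V] [Fintype J] (w : V → V → ℝ) (m : V → ℝ)
    (U : J → V → ℝ) (l τ : ℝ), (∀ u v, 0 ≤ w u v) → (∀ u v, w u v = w v u) → (∀ u, 0 ≤ m u) →
    (∀ u, m u = 0 → ∀ v, w u v = 0) →
    0 < l → LSob w m l → 0 < τ → τ ≤ 1 →
    0 < ∑ j, ip m (U j) (U j) → ∑ j, en w (U j) ≤ τ * ∑ j, ip m (U j) (U j) →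
    (∑ j, ip m (U j) (U j)) ^ 2 / 16 * (Real.exp (-(8 * τ / l * Real.log (1 / τ)))
        * (Fintype.card V : ℝ) ^ (-τ))
      ≤ ∑ u, ∑ v, m u * m v * (∑ j, U j u * U j v) ^ 2

/-! ### statements: the soft partition -/

/-- SPH: homogeneity of the objective -/
def St_SPH : Prop :=
  ∀ (V : Type) [Fintype V] (w : V → V → ℝ) (l t : ℝ) (f : V → ℝ), (∀ u v, 0 ≤ w u v) → 0 ≤ t →
    psi w l (fun v => t * f v) = t ^ 2 * psi w l f

/-- SPS: change of the objective when a part is split -/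
def St_SPS : Prop :=
  ∀ (V : Type) [Fintype V] (w : V → V → ℝ) (l : ℝ) (f g g' : V → ℝ),
    (∀ u v, 0 ≤ w u v) → (∀ u v, w u v = w v u) → (∀ v, 0 ≤ f v) →
    (∀ v, 0 ≤ g v) → (∀ v, 0 ≤ g' v) → (∀ v, g v ^ 2 + g' v ^ 2 = 1) →
    psi w l (fun v => f v * g v) + psi w l (fun v => f v * g' v)
      = psi w l f + l * (Ent (mf w f) (fun v => g v ^ 2) + Ent (mf w f) (fun v => g' v ^ 2))
        - (en (cf w f) g + en (cf w f) g')

/-- SPU: upper bound of the total entropy -/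
def St_SPU : Prop :=
  ∀ (V I : Type) [Fintype V] [Fintype I] (d : V → ℝ) (f : I → V → ℝ),
    (∀ v, 0 ≤ d v) → IsSoft f →
    ∑ i, Ent d (fun v => f i v ^ 2) ≤ (∑ v, d v) * Real.log (Fintype.card V)

/-- SPR: removing one part -/
def St_SPR : Prop :=
  ∀ (V I : Type) [Fintype V] [Fintype I] [DecidableEq I] (w : V → V → ℝ) (l : ℝ)
    (f : I → V → ℝ), (∀ u v, 0 ≤ w u v) → Fintype.card V < Fintype.card I → IsSoft f →
    ∃ (f' : I → V → ℝ) (i0 : I), IsSoft f' ∧ (∀ v, f' i0 v = 0) ∧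
      ∑ i, psi w l (f i) ≤ ∑ i, psi w l (f' i)

/-- SPM: existence of an optimal soft partition -/
def St_SPM : Prop :=
  ∀ (V I : Type) [Fintype V] [Fintype I] [Nonempty I] (w : V → V → ℝ) (l : ℝ),
    ∃ f : I → V → ℝ, IsSoft f ∧ ∀ f' : I → V → ℝ, IsSoft f' →
      ∑ i, psi w l (f' i) ≤ ∑ i, psi w l (f i)

/-- SPL: log-Sobolev inequality from the splitting inequality -/
def St_SPL : Prop :=
  ∀ (W : Type) [Fintype W] [DecidableEq W] (c : W → W → ℝ) (m : W → ℝ) (l : ℝ),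
    (∀ u v, 0 ≤ c u v) → (∀ v, 0 ≤ m v) → 0 ≤ l →
    (∀ g g' : W → ℝ, (∀ v, 0 ≤ g v) → (∀ v, 0 ≤ g' v) → (∀ v, g v ^ 2 + g' v ^ 2 = 1) →
      l * (Ent m (fun v => g v ^ 2) + Ent m (fun v => g' v ^ 2)) ≤ en c g + en c g') →
    LSob c m l

/-- SP: the soft partition -/
def St_SP : Prop :=
  ∀ (V : Type) [Fintype V] [DecidableEq V] (w : V → V → ℝ) (l : ℝ),
    (∀ u v, 0 ≤ w u v) → (∀ u v, w u v = w v u) → 0 ≤ l →
    ∃ f : Fin (Fintype.card V + 1) → V → ℝ, IsSoft f ∧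
      (∀ i, LSob (cf w (f i)) (mf w (f i)) l) ∧
      ∑ i, en w (f i) ≤ l * ((∑ v, dw w v) * Real.log (Fintype.card V))

/-- CS: correlated sampling -/
def St_CS : Prop :=
  ∀ (V E I : Type) [Fintype V] [DecidableEq V] [Fintype E] [Fintype I] [DecidableEq I]
    (s t : E → V) (p : I → V → ℝ) (b : I → E → ℝ),
    (∀ i v, 0 ≤ p i v) → (∀ v, ∑ i, p i v = 1) → (∀ i e, 0 ≤ b i e) →
    ∃ c : V → I, ∑ e, (if c (s e) = c (t e) then b (c (s e)) e else 1)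
      ≤ ∑ e, ((∑ i, |p i (s e) - p i (t e)|) + ∑ i, min (p i (s e)) (p i (t e)) * b i e)

/-! ### statements: unique games -/

/-- total mass of the soft part `f` -/
def volL {V E : Type} [Fintype V] [Fintype E] [DecidableEq V] (s t : E → V) (f : V → ℝ) : ℝ :=
  ∑ v, dgr s t v * f v ^ 2

/-- total variance in the soft part `f` -/
noncomputable def PhiL {V A E : Type} [Fintype V] [Fintype E] [DecidableEq V] [Fintype A]
    [DecidableEq A] (s t : E → V) (f : V → ℝ) (L : ((V → A) → ℝ) →ₗ[ℝ] ℝ) : ℝ :=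
  ∑ v, dgr s t v * f v ^ 2 * vr L v

/-- total error in the soft part `f` -/
noncomputable def ErrL {V A E : Type} [Fintype E] [DecidableEq A]
    (s t : E → V) (π : E → Equiv.Perm A) (f : V → ℝ) (L : ((V → A) → ℝ) →ₗ[ℝ] ℝ) : ℝ :=
  ∑ e, f (s e) * f (t e) * (1 - L (sat (s e) (t e) (π e)))

/-- size of one conditioning step -/
noncomputable def stp (l c0 τ : ℝ) (n : ℕ) : ℝ :=
  c0 ^ 2 / 1024 * (Real.exp (-(8 * τ / l * Real.log (1 / τ))) * (n : ℝ) ^ (-τ))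

/-- S1L: one conditioning step -/
def St_S1L : Prop :=
  ∀ (V A E : Type) [Fintype V] [DecidableEq V] [Fintype A] [DecidableEq A] [Fintype E]
    (s t : E → V) (π : E → Equiv.Perm A) (f : V → ℝ) (L : ((V → A) → ℝ) →ₗ[ℝ] ℝ) (D : ℕ)
    (l c0 ε' : ℝ), 2 ≤ D → IsPE D L → (∀ v, 0 ≤ f v) → 0 < volL s t f →
    0 < l → LSob (cf (wt s t) f) (fun v => dgr s t v * f v ^ 2) l → 0 < c0 → 0 < ε' →
    192 * ε' / c0 ≤ 1 →
    c0 * volL s t f ≤ PhiL s t f L → ErrL s t π f L ≤ ε' * volL s t f →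
    ∃ u, stp l c0 (192 * ε' / c0) (Fintype.card V) * volL s t f
      ≤ PhiL s t f L - ∑ a, pr L u a * PhiL s t f (cnd L u a)

/-- S2L: iteration -/
def St_S2L : Prop :=
  ∀ (V A E : Type) [Fintype V] [DecidableEq V] [Fintype A] [DecidableEq A] [Fintype E]
    (s t : E → V) (π : E → Equiv.Perm A) (f : V → ℝ) (l c0 ε0 : ℝ) (k : ℕ),
    (∀ v, 0 ≤ f v) → 0 < volL s t f →
    0 < l → LSob (cf (wt s t) f) (fun v => dgr s t v * f v ^ 2) l → 0 < c0 → 0 < ε0 →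
    384 * ε0 / c0 ≤ 1 →
    2 ≤ k * stp l c0 (384 * ε0 / c0) (Fintype.card V) →
    ∀ (L : ((V → A) → ℝ) →ₗ[ℝ] ℝ) (D : ℕ), k + 2 ≤ D → IsPE D L →
    ErrL s t π f L ≤ ε0 * volL s t f →
    ∃ L' : ((V → A) → ℝ) →ₗ[ℝ] ℝ, IsPE 2 L' ∧ PhiL s t f L' ≤ c0 * volL s t f ∧
      ErrL s t π f L' ≤ 2 * ε0 * volL s t f

/-- S3L: rounding in one part -/
def St_S3L : Prop :=
  ∀ (V A E : Type) [Fintype V] [DecidableEq V] [Fintype A] [DecidableEq A] [Fintype E]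
    (s t : E → V) (π : E → Equiv.Perm A) (f : V → ℝ) (L : ((V → A) → ℝ) →ₗ[ℝ] ℝ),
    (∀ v, 0 ≤ f v) → IsPE 2 L →
    ∃ x : V → A, ∑ e, min (f (s e) ^ 2) (f (t e) ^ 2) * (if π e (x (s e)) = x (t e) then 0 else 1)
      ≤ PhiL s t f L + ErrL s t π f L

/-- S4L: assembly -/
def St_S4L : Prop :=
  ∀ (V A E : Type) [Fintype V] [DecidableEq V] [Fintype A] [DecidableEq A] [Fintype E]
    (s t : E → V) (π : E → Equiv.Perm A) (l c0 ε0 ε : ℝ) (k : ℕ)
    (L : ((V → A) → ℝ) →ₗ[ℝ] ℝ) (D : ℕ), 0 < l → 0 < c0 → 0 < ε0 → 384 * ε0 / c0 ≤ 1 →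
    2 ≤ k * stp l c0 (384 * ε0 / c0) (Fintype.card V) →
    k + 2 ≤ D → IsPE D L →
    (1 - ε) * (Fintype.card E : ℝ) ≤ ∑ e, L (sat (s e) (t e) (π e)) →
    ∃ x : V → A, (Fintype.card E : ℝ) * (1 - (2 * Real.sqrt (2 * l * Real.log (Fintype.card V))
        + ε / (2 * ε0) + 2 * (c0 + 2 * ε0)))
      ≤ ((univ.filter fun e => π e (x (s e)) = x (t e)).card : ℝ)

/-- MAINL: the theorem -/
def St_MAINL : Prop :=
  ∃ C : ℝ, 0 < C ∧ ∀ γ : ℝ, 0 < γ → γ < 1 →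
    ∀ (V A E : Type) [Fintype V] [DecidableEq V] [Fintype A] [DecidableEq A] [Fintype E]
      (s t : E → V) (π : E → Equiv.Perm A) (ε : ℝ) (D : ℕ) (L : ((V → A) → ℝ) →ₗ[ℝ] ℝ),
      0 < ε → ε ≤ γ →
      C / γ ^ 4 * (Fintype.card V : ℝ) ^ (C / γ ^ 4 * (ε * Real.log (2 / ε))) ≤ D → IsPE D L →
      (1 - ε) * (Fintype.card E : ℝ) ≤ ∑ e, L (sat (s e) (t e) (π e)) →
      ∃ x : V → A, (1 - γ) * (Fintype.card E : ℝ)
        ≤ ((univ.filter fun e => π e (x (s e)) = x (t e)).card : ℝ)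

/-! ### statements: the soft decomposition theorem -/

/-- normalised Laplacian of the soft part with amplitude `f`, on the vertices of positive mass -/
noncomputable def softLap {V : Type} [Fintype V] [DecidableEq V] (w : V → V → ℝ) (f : V → ℝ) :
    Matrix {v // 0 < mf w f v} {v // 0 < mf w f v} ℝ :=
  fun u v => ((if u = v then ∑ x, cf w f u x else 0) - cf w f u v)
    / (Real.sqrt (mf w f u) * Real.sqrt (mf w f v))

/-- EAL: a soft part with a log-Sobolev inequality has few small eigenvalues -/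
def St_EAL : Prop :=
  ∀ (V : Type) [Fintype V] [DecidableEq V] (w : V → V → ℝ) (f : V → ℝ) (l η : ℝ),
    (∀ u v, 0 ≤ w u v) → (∀ u v, w u v = w v u) → (∀ v, 0 ≤ f v) →
    0 < l → 0 < η → η ≤ 1 → LSob (cf w f) (mf w f) l →
    (((softLap w f).charpoly.roots.filter fun x => x ≤ η).card : ℝ)
      ≤ 16 * (Real.exp (8 * η / l * Real.log (1 / η)) * (Fintype.card V : ℝ) ^ η)

/-- DECL: the soft decomposition theorem -/
def St_DECL : Prop :=
  ∀ (V : Type) [Fintype V] [DecidableEq V] (w : V → V → ℝ) (K : ℝ),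
    (∀ u v, 0 ≤ w u v) → (∀ u v, w u v = w v u) → 2 ≤ Fintype.card V → 0 < K →
    ∃ f : Fin (Fintype.card V + 1) → V → ℝ, IsSoft f ∧
      ∑ i, ∑ u, ∑ v, w u v * (f i u - f i v) ^ 2 ≤ K * ∑ u, ∑ v, w u v ∧
      (∀ i, LSob (cf w (f i)) (mf w (f i)) (K / (2 * Real.log (Fintype.card V)))) ∧
      ∀ i, ∀ η : ℝ, 0 < η → η ≤ 1 →
        (((softLap w (f i)).charpoly.roots.filter fun x => x ≤ η).card : ℝ)
          ≤ 16 * (Fintype.card V : ℝ) ^ (η + 16 * η / K * Real.log (1 / η))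

end Pool.Agent.H573R3.SL
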