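import Pool.Agent.H573R3.SL.Defs

/-! CS: correlated sampling (derandomised).  Prover: helper676. -/

namespace Pool.Agent.H573R3.SL

open Finset Pool.Agent.H647R3.UG

namespace CS

open MeasureTheory

/-- threshold indicator -/
noncomputable def thr (x u : ℝ) : ℝ := if u < x then 1 else 0

/-- the average over the thresholds -/
noncomputable def J (f : ℝ → ℝ) : ℝ := ∫ u in Set.Ioc (0 : ℝ) 1, f u

theorem thr_eq (x : ℝ) : thr x = Set.indicator (Set.Iio x) (fun _ => (1 : ℝ)) := by
  funext u
  unfold thr
  rw [Set.indicator_apply]
  rfl

theorem thr_int (x : ℝ) : IntegrableOn (thr x) (Set.Ioc (0 : ℝ) 1) := by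
  rw [thr_eq]
  exact (integrable_const (1 : ℝ)).indicator measurableSet_Iio

theorem J_thr (x : ℝ) (h0 : 0 ≤ x) (h1 : x ≤ 1) : J (thr x) = x := by
  unfold J
  rw [thr_eq, setIntegral_indicator measurableSet_Iio, setIntegral_const]
  have e : Set.Ioc (0 : ℝ) 1 ∩ Set.Iio x = Set.Ioo 0 x := by
    ext u
    simp only [Set.mem_inter_iff, Set.mem_Ioc, Set.mem_Iio, Set.mem_Ioo]
    constructor
    · rintro ⟨⟨a, _⟩, c⟩
      exact ⟨a, c⟩
    · rintro ⟨a, c⟩
      exact ⟨⟨a, by linarith⟩, c⟩
  rw [e, Real.volume_real_Ioo_of_le h0]
  simp

theorem J_lin (α β γ x y z : ℝ) (hx : 0 ≤ x) (hx1 : x ≤ 1) (hy : 0 ≤ y) (hy1 : y ≤ 1)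
    (hz : 0 ≤ z) (hz1 : z ≤ 1) :
    J (fun u => α * thr x u + β * thr y u + γ * thr z u) = α * x + β * y + γ * z := by
  have k1 := J_thr x hx hx1
  have k2 := J_thr y hy hy1
  have k3 := J_thr z hz hz1
  unfold J at k1 k2 k3 ⊢
  have i1 : IntegrableOn (fun u => α * thr x u) (Set.Ioc (0 : ℝ) 1) := (thr_int x).const_mul α
  have i2 : IntegrableOn (fun u => β * thr y u) (Set.Ioc (0 : ℝ) 1) := (thr_int y).const_mul β
  have i3 : IntegrableOn (fun u => γ * thr z u) (Set.Ioc (0 : ℝ) 1) := (thr_int z).const_mul γ
  have i12 : IntegrableOn (fun u => α * thr x u + β * thr y u) (Set.Ioc (0 : ℝ) 1) := i1.add i2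
  rw [integral_add i12 i3, integral_add i1 i2, integral_const_mul, integral_const_mul,
    integral_const_mul, k1, k2, k3]

variable {I : Type} [DecidableEq I]

/-- potential of an edge -/
noncomputable def ph (x y b : I → ℝ) (a : ℝ) : Option I → Option I → ℝ
  | some i, some j => if i = j then b i else 1
  | some i, none => y i * b i + (1 - y i)
  | none, some j => x j * b j + (1 - x j)
  | none, none => a

/-- one step of the sampling -/
noncomputable def nx (z : I → ℝ) (i : I) (u : ℝ) : Option I → Option I
  | some j => some j
  | none => if u < z i then some i else none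

variable [Fintype I]

theorem key (x y b : I → ℝ) (hx : ∀ i, 0 ≤ x i) (hy : ∀ i, 0 ≤ y i) (hb : ∀ i, 0 ≤ b i)
    (hx1 : ∑ i, x i = 1) (hy1 : ∑ i, y i = 1) (a : ℝ)
    (ha : a = (∑ i, |x i - y i|) + ∑ i, min (x i) (y i) * b i) :
    ∑ i, ((b i - a - (y i * b i + (1 - y i) - a) - (x i * b i + (1 - x i) - a)) *
      min (x i) (y i) + (y i * b i + (1 - y i) - a) * x i + (x i * b i + (1 - x i) - a) * y i)
      ≤ 0 := by
  set A : ℝ := ∑ i, |x i - y i| with hA
  set B : ℝ := ∑ i, min (x i) (y i) * b i with hB
  have hA0 : 0 ≤ A := Finset.sum_nonneg fun i _ => abs_nonneg _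
  have hmin : ∀ i, 0 ≤ min (x i) (y i) := fun i => le_min (hx i) (hy i)
  have hB0 : 0 ≤ B := Finset.sum_nonneg fun i _ => mul_nonneg (hmin i) (hb i)
  have hD : ∀ i, |x i - y i| ≤ A / 2 := by
    intro i
    have h1 : ∑ j ∈ univ.erase i, (x j - y j) = -(x i - y i) := by
      have hs : ∑ j, (x j - y j) = 0 := by
        rw [Finset.sum_sub_distrib, hx1, hy1, sub_self]
      have h2 := Finset.add_sum_erase univ (fun j => x j - y j) (mem_univ i)
      linarith
    have h2 := Finset.add_sum_erase univ (fun j => |x j - y j|) (mem_univ i)
    have h3 := Finset.abs_sum_le_sum_abs (fun j => x j - y j) (univ.erase i)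
    rw [h1, abs_neg] at h3
    linarith
  have hterm : ∀ i, (b i - a - (y i * b i + (1 - y i) - a) - (x i * b i + (1 - x i) - a)) *
      min (x i) (y i) + (y i * b i + (1 - y i) - a) * x i + (x i * b i + (1 - x i) - a) * y i ≤
      (min (x i) (y i) * b i) * (1 + A / 2) + |x i - y i| -
        a * (min (x i) (y i) + |x i - y i|) := by
    intro i
    have h1 := mul_le_mul_of_nonneg_left (hD i) (mul_nonneg (hmin i) (hb i))
    have h2 := mul_nonneg (hmin i) (abs_nonneg (x i - y i))
    rcases le_total (x i) (y i) with h | h
    · rw [min_eq_left h] at h1 h2 ⊢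
      rw [abs_of_nonpos (by linarith)] at h1 h2 ⊢
      nlinarith
    · rw [min_eq_right h] at h1 h2 ⊢
      rw [abs_of_nonneg (by linarith)] at h1 h2 ⊢
      nlinarith
  refine (Finset.sum_le_sum fun i _ => hterm i).trans ?_
  rw [Finset.sum_sub_distrib, Finset.sum_add_distrib, ← Finset.sum_mul, ← Finset.mul_sum,
    Finset.sum_add_distrib, ← hA, ← hB]
  have hm : ∑ i, min (x i) (y i) = 1 - A / 2 := by
    have h1 : ∀ i, min (x i) (y i) = (x i + y i - |x i - y i|) / 2 := by
      intro i
      rcases le_total (x i) (y i) with h | h
      · rw [min_eq_left h, abs_of_nonpos (by linarith)]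
        ring
      · rw [min_eq_right h, abs_of_nonneg (by linarith)]
        ring
    rw [Finset.sum_congr rfl fun i _ => h1 i, ← Finset.sum_div, Finset.sum_sub_distrib,
      Finset.sum_add_distrib, hx1, hy1, ← hA]
    ring
  rw [hm, ha]
  nlinarith [mul_nonneg hA0 hA0, mul_nonneg hA0 hB0]

theorem edge (x y b : I → ℝ) (hx : ∀ i, 0 ≤ x i) (hy : ∀ i, 0 ≤ y i) (hb : ∀ i, 0 ≤ b i)
    (hx1 : ∑ i, x i = 1) (hy1 : ∑ i, y i = 1) (a : ℝ)
    (ha : a = (∑ i, |x i - y i|) + ∑ i, min (x i) (y i) * b i) (o1 o2 : Option I) :
    ∃ α β γ : I → ℝ, (∀ i u, ph x y b a (nx x i u o1) (nx y i u o2) - ph x y b a o1 o2 =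
      α i * thr (min (x i) (y i)) u + β i * thr (x i) u + γ i * thr (y i) u) ∧
      ∑ i, (α i * min (x i) (y i) + β i * x i + γ i * y i) ≤ 0 := by
  match o1, o2 with
  | some i0, some j0 =>
    refine ⟨0, 0, 0, fun i u => ?_, ?_⟩
    · simp [nx]
    · simp
  | some j, none =>
    refine ⟨0, 0, fun i => (if j = i then b j else 1) - (y j * b j + (1 - y j)), fun i u => ?_, ?_⟩
    · by_cases h : u < y i
      · simp [nx, h, ph, thr]
      · simp [nx, h, ph, thr]
    · apply le_of_eq
      have h1 : ∀ i, ((0 : I → ℝ) i * min (x i) (y i) + (0 : I → ℝ) i * x i +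
          ((if j = i then b j else 1) - (y j * b j + (1 - y j))) * y i) =
          (if j = i then (b j - 1) * y i else 0) + (1 - (y j * b j + (1 - y j))) * y i := by
        intro i
        simp only [Pi.zero_apply]
        split_ifs <;> ring
      rw [Finset.sum_congr rfl fun i _ => h1 i, Finset.sum_add_distrib, Finset.sum_ite_eq,
        if_pos (mem_univ j), ← Finset.mul_sum, hy1]
      ring
  | none, some j =>
    refine ⟨0, fun i => (if i = j then b i else 1) - (x j * b j + (1 - x j)), 0, fun i u => ?_, ?_⟩
    · by_cases h : u < x i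
      · simp [nx, h, ph, thr]
      · simp [nx, h, ph, thr]
    · apply le_of_eq
      have h1 : ∀ i, ((0 : I → ℝ) i * min (x i) (y i) +
          ((if i = j then b i else 1) - (x j * b j + (1 - x j))) * x i + (0 : I → ℝ) i * y i) =
          (if i = j then (b i - 1) * x i else 0) + (1 - (x j * b j + (1 - x j))) * x i := by
        intro i
        simp only [Pi.zero_apply]
        split_ifs <;> ring
      rw [Finset.sum_congr rfl fun i _ => h1 i, Finset.sum_add_distrib, Finset.sum_ite_eq',
        if_pos (mem_univ j), ← Finset.mul_sum, hx1]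
      ring
  | none, none =>
    refine ⟨fun i => b i - a - (y i * b i + (1 - y i) - a) - (x i * b i + (1 - x i) - a),
      fun i => y i * b i + (1 - y i) - a, fun i => x i * b i + (1 - x i) - a, fun i u => ?_,
      key x y b hx hy hb hx1 hy1 a ha⟩
    by_cases h : u < x i
    · by_cases h' : u < y i
      · simp [nx, h, h', ph, thr]
        try ring
      · simp [nx, h, h', ph, thr]
    · by_cases h' : u < y i
      · simp [nx, h, h', ph, thr]
      · simp [nx, h, h', ph, thr]

end CS

open CS in
theorem T_CS : St_CS := by
  intro V E I _ _ _ _ _ s t p b hp hp1 hb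
  classical
  rcases isEmpty_or_nonempty V with hV | ⟨⟨v₁⟩⟩
  · have hE : IsEmpty E := ⟨fun e => hV.false (s e)⟩
    exact ⟨fun v => (hV.false v).elim, by simp⟩
  have hI : Nonempty I := by
    by_contra h
    rw [not_nonempty_iff] at h
    have := hp1 v₁
    rw [Finset.univ_eq_empty, Finset.sum_empty] at this
    exact zero_ne_one this
  -- the potential
  let a : E → ℝ := fun e =>
    (∑ i, |p i (s e) - p i (t e)|) + ∑ i, min (p i (s e)) (p i (t e)) * b i e
  let Phi : (V → Option I) → ℝ := fun c => ∑ e, ph (fun i => p i (s e)) (fun i => p i (t e))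
    (fun i => b i e) (a e) (c (s e)) (c (t e))
  let nxt : (V → Option I) → I → ℝ → V → Option I := fun c i u v => nx (fun i => p i v) i u (c v)
  let cost : (V → I) → ℝ := fun c => ∑ e, (if c (s e) = c (t e) then b (c (s e)) e else 1)
  obtain ⟨cm, -, hcm⟩ := Finset.exists_min_image (univ : Finset (V → I)) cost
    ⟨fun _ => hI.some, mem_univ _⟩
  have hple : ∀ i v, p i v ≤ 1 := by
    intro i v
    rw [← hp1 v]
    exact Finset.single_le_sum (f := fun i => p i v) (fun j _ => hp j v) (mem_univ i)
  have hmain : ∀ (n : ℕ) (c : V → Option I), (univ.filter fun v => c v = none).card = n →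
      cost cm ≤ Phi c := by
    intro n
    induction n using Nat.strong_induction_on with
    | _ n ih =>
      intro c hn
      by_cases hall : ∀ v, c v ≠ none
      · -- everything is assigned
        have h1 : ∀ v, ∃ i, c v = some i := fun v => Option.ne_none_iff_exists'.1 (hall v)
        choose c' hc' using h1
        have h2 : Phi c = cost c' := by
          refine Finset.sum_congr rfl fun e _ => ?_
          rw [hc' (s e), hc' (t e)]
          rfl
        rw [h2]
        exact hcm c' (mem_univ _)
      · push Not at hall
        obtain ⟨v0, hv0⟩ := hall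
        by_contra hlt
        rw [not_le] at hlt
        set d : ℝ := cost cm - Phi c with hd
        have hd0 : 0 < d := by linarith
        -- the change of the potential
        have hstep : ∀ i u, d * thr (p i v0) u ≤ Phi (nxt c i u) - Phi c := by
          intro i u
          have hsub : (univ.filter fun v => nxt c i u v = none) ⊆
              univ.filter fun v => c v = none := by
            intro v hv
            rw [mem_filter] at hv ⊢
            refine ⟨mem_univ v, ?_⟩
            by_contra h
            obtain ⟨j, hj⟩ := Option.ne_none_iff_exists'.1 h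
            have h2 := hv.2
            simp only [nxt, hj, nx] at h2
            exact absurd h2 (by simp)
          by_cases hS : ∃ v, c v = none ∧ u < p i v
          · obtain ⟨v, hv, hv'⟩ := hS
            have hlt2 : (univ.filter fun v => nxt c i u v = none).card < n := by
              rw [← hn]
              apply Finset.card_lt_card
              refine ⟨hsub, fun h => ?_⟩
              have h3 := h (mem_filter.2 ⟨mem_univ v, hv⟩)
              rw [mem_filter] at h3
              have h4 := h3.2
              simp only [nxt, hv, nx, if_pos hv'] at h4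
              exact absurd h4 (by simp)
            have h5 := ih _ hlt2 (nxt c i u) rfl
            have h6 : thr (p i v0) u ≤ 1 := by
              unfold thr
              split_ifs <;> norm_num
            nlinarith
          · push Not at hS
            have h5 : nxt c i u = c := by
              funext v
              simp only [nxt]
              cases hcv : c v with
              | some j => rfl
              | none =>
                simp only [nx]
                rw [if_neg (not_lt.2 (hS v hcv))]
            have h6 : thr (p i v0) u = 0 := if_neg (not_lt.2 (hS v0 hv0))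
            rw [h5, h6]
            simp
        have hedge := fun e => edge (fun i => p i (s e)) (fun i => p i (t e)) (fun i => b i e)
          (fun i => hp i _) (fun i => hp i _) (fun i => hb i e) (hp1 _) (hp1 _) (a e) rfl
          (c (s e)) (c (t e))
        choose α β γ h1 h2 using hedge
        have hexp : ∀ i u, Phi (nxt c i u) - Phi c = ∑ e,
            (α e i * thr (min (p i (s e)) (p i (t e))) u + β e i * thr (p i (s e)) u +
              γ e i * thr (p i (t e)) u) := by
          intro i u
          simp only [Phi]
          rw [← Finset.sum_sub_distrib]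
          exact Finset.sum_congr rfl fun e _ => h1 e i u
        have hint : ∀ i e, MeasureTheory.IntegrableOn (fun u =>
            α e i * thr (min (p i (s e)) (p i (t e))) u + β e i * thr (p i (s e)) u +
              γ e i * thr (p i (t e)) u) (Set.Ioc (0 : ℝ) 1) := fun i e =>
          (((thr_int _).const_mul _).add ((thr_int _).const_mul _)).add ((thr_int _).const_mul _)
        have hJ : ∀ i, d * p i v0 ≤ ∑ e, (α e i * min (p i (s e)) (p i (t e)) +
            β e i * p i (s e) + γ e i * p i (t e)) := by
          intro i
          have h3 : J (fun u => d * thr (p i v0) u) ≤ J (fun u => ∑ e,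
            (α e i * thr (min (p i (s e)) (p i (t e))) u + β e i * thr (p i (s e)) u +
              γ e i * thr (p i (t e)) u)) := by
            unfold J
            refine MeasureTheory.setIntegral_mono ((thr_int _).const_mul _)
              (MeasureTheory.integrable_finsetSum _ fun e _ => hint i e) fun u => ?_
            have := hstep i u
            rw [hexp] at this
            exact this
          have h4 : J (fun u => d * thr (p i v0) u) = d * p i v0 := by
            unfold J
            rw [MeasureTheory.integral_const_mul]
            congr 1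
            exact J_thr _ (hp i v0) (hple i v0)
          have h5 : J (fun u => ∑ e, (α e i * thr (min (p i (s e)) (p i (t e))) u +
              β e i * thr (p i (s e)) u + γ e i * thr (p i (t e)) u)) =
              ∑ e, (α e i * min (p i (s e)) (p i (t e)) + β e i * p i (s e) +
                γ e i * p i (t e)) := by
            unfold J
            rw [MeasureTheory.integral_finsetSum _ fun e _ => hint i e]
            refine Finset.sum_congr rfl fun e _ => ?_
            exact J_lin _ _ _ _ _ _ (le_min (hp i _) (hp i _))
              ((min_le_left _ _).trans (hple i _)) (hp i _) (hple i _) (hp i _) (hple i _)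
          rw [h4, h5] at h3
          exact h3
        have h3 := Finset.sum_le_sum fun i (_ : i ∈ (univ : Finset I)) => hJ i
        rw [← Finset.mul_sum, hp1, mul_one, Finset.sum_comm] at h3
        have h4 := Finset.sum_nonpos fun e (_ : e ∈ (univ : Finset E)) => h2 e
        linarith
  exact ⟨cm, hmain _ (fun _ => none) rfl⟩

end Pool.Agent.H573R3.SL
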