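import Pool.Agent.H573R3.SL.Defs

namespace Pool.Agent.H573R3.SL

open Pool.Agent.H647R3.UG

theorem top (hOP : St_OP) (hLC : St_LC) (hRA : St_RA) (hRB : St_RB) (hRD : St_RD) (hFL : St_FL)
    (hFB : St_FB) (hFC : St_FC) (hFV : St_FV) (hFD : St_FD) (hFT : St_FT) (hWT : St_WT)
    (tEP : St_EP) (tFKL : St_EP → St_FKL) (tHDL : St_OP → St_FKL → St_HDL) (tSQ : St_SQ)
    (tGCL : St_OP → St_HDL → St_LC → St_SQ → St_GCL) (tGCFL : St_GCL → St_GCFL)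
    (tSPH : St_SPH) (tSPS : St_SPS) (tSPU : St_SPU) (tSPR : St_SPH → St_SPR) (tSPM : St_SPM)
    (tSPL : St_EP → St_SPL) (tSP : St_SPM → St_SPR → St_SPS → St_SPU → St_SPL → St_SP)
    (tCS : St_CS)
    (tS1L : St_GCFL → St_RA → St_RB → St_RD → St_FB → St_FV → St_FD → St_WT → St_S1L)
    (tS2L : St_S1L → St_FL → St_FB → St_FC → St_S2L)
    (tS3L : St_FB → St_WT → St_S3L)
    (tS4L : St_SP → St_CS → St_S2L → St_S3L → St_FB → St_WT → St_S4L)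
    (tMAINL : St_S4L → St_FT → St_MAINL)
    (tEAL : St_GCFL → St_EAL) (tDECL : St_SP → St_EAL → St_DECL) :
    St_MAINL ∧ St_DECL := by
  have hFKL := tFKL tEP
  have hHDL := tHDL hOP hFKL
  have hGCL := tGCL hOP hHDL hLC tSQ
  have hGCFL := tGCFL hGCL
  have hSPR := tSPR tSPH
  have hSPL := tSPL tEP
  have hSP := tSP tSPM hSPR tSPS tSPU hSPL
  have hS1L := tS1L hGCFL hRA hRB hRD hFB hFV hFD hWT
  have hS2L := tS2L hS1L hFL hFB hFC
  have hS3L := tS3L hFB hWT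
  have hS4L := tS4L hSP tCS hS2L hS3L hFB hWT
  exact ⟨tMAINL hS4L hFT, tDECL hSP (tEAL hGCFL)⟩

end Pool.Agent.H573R3.SL
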